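import Mathlib

set_option autoImplicit false

open Complex Set Filter Metric Topology

namespace Pool.Agent.H801R2.CX

variable {T : Type*} [TopologicalSpace T]

/-- continuous families of entire functions -/
def Ent (F : T × ℂ → ℂ) : Prop := Continuous F ∧ ∀ θ, Differentiable ℂ (fun z => F (θ, z))

theorem Ent.add {F G : T × ℂ → ℂ} (hF : Ent F) (hG : Ent G) : Ent (fun p => F p + G p) :=
  ⟨hF.1.add hG.1, fun θ => (hF.2 θ).add (hG.2 θ)⟩

theorem Ent.sub {F G : T × ℂ → ℂ} (hF : Ent F) (hG : Ent G) : Ent (fun p => F p - G p) :=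
  ⟨hF.1.sub hG.1, fun θ => (hF.2 θ).sub (hG.2 θ)⟩

theorem Ent.mul {F G : T × ℂ → ℂ} (hF : Ent F) (hG : Ent G) : Ent (fun p => F p * G p) :=
  ⟨hF.1.mul hG.1, fun θ => (hF.2 θ).mul (hG.2 θ)⟩

theorem Ent.exp {F : T × ℂ → ℂ} (hF : Ent F) : Ent (fun p => Complex.exp (F p)) :=
  ⟨hF.1.cexp, fun θ => (hF.2 θ).cexp⟩

theorem ent_param {f : T → ℂ} (hf : Continuous f) : Ent (fun p : T × ℂ => f p.1) :=
  ⟨hf.comp continuous_fst, fun θ => (differentiable_const (f θ) : Differentiable ℂ fun _ => f θ)⟩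

theorem ent_const (c : ℂ) : Ent (fun _ : T × ℂ => c) := ent_param continuous_const

theorem ent_pow (n : ℕ) : Ent (fun p : T × ℂ => p.2 ^ n) :=
  ⟨by fun_prop, fun θ => by simp only; fun_prop⟩

theorem ent_poly (p : Polynomial ℂ) {m : T × ℂ → ℂ} (hm : Ent m) :
    Ent (fun q => p.eval (m q)) :=
  ⟨p.continuous.comp hm.1, fun θ => p.differentiable.comp (hm.2 θ)⟩

theorem ent_sum {ι : Type*} (s : Finset ι) {F : ι → T × ℂ → ℂ} (hF : ∀ i ∈ s, Ent (F i)) :
    Ent (fun p => ∑ i ∈ s, F i p) := by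
  classical
  induction s using Finset.induction_on with
  | empty => simpa using ent_const 0
  | insert a s ha ih =>
    simp only [Finset.sum_insert ha]
    exact (hF a (Finset.mem_insert_self _ _)).add
      (ih fun i hi => hF i (Finset.mem_insert_of_mem hi))

theorem norm_le_of_circle {f : ℂ → ℂ} (hf : Differentiable ℂ f) {S : ℝ}
    (h : ∀ z : ℂ, ‖z‖ = 1 → ‖f z‖ ≤ S) {z : ℂ} (hz : ‖z‖ ≤ 1) : ‖f z‖ ≤ S := by
  apply Complex.norm_le_of_forall_mem_frontier_norm_le (U := ball (0 : ℂ) 1) isBounded_ball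
    hf.diffContOnCl
  · intro w hw
    rw [frontier_ball (0 : ℂ) one_ne_zero] at hw
    exact h w (mem_sphere_zero_iff_norm.1 hw)
  · rw [closure_ball (0 : ℂ) one_ne_zero]
    exact mem_closedBall_zero_iff.2 hz

/-- removing the constant term -/
theorem ent_dslope {F : T × ℂ → ℂ} (hF : Ent F) :
    Ent (fun p : T × ℂ => dslope (fun z => F (p.1, z)) 0 p.2) := by
  have hd : ∀ θ, Differentiable ℂ (dslope (fun z => F (θ, z)) 0) := by
    intro θ
    rw [← differentiableOn_univ, Complex.differentiableOn_dslope univ_mem]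
    exact (hF.2 θ).differentiableOn
  refine ⟨?_, hd⟩
  rw [continuous_iff_continuousAt]
  rintro ⟨θ0, z0⟩
  by_cases hz0 : z0 = 0
  · subst hz0
    rw [Metric.continuousAt_iff']
    intro ε hε
    have h1 : ∀ᶠ θ in 𝓝 θ0, ∀ z ∈ closedBall (0 : ℂ) 1, ‖F (θ, z) - F (θ0, z)‖ < ε / 8 := by
      apply (isCompact_closedBall (0 : ℂ) 1).eventually_forall_of_forall_eventually
      intro z _
      have hc : Continuous (fun q : T × ℂ => ‖F (q.1, q.2) - F (θ0, q.2)‖) :=
        (hF.1.sub (hF.1.comp (by fun_prop : Continuous fun q : T × ℂ => (θ0, q.2)))).norm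
      exact hc.continuousAt.eventually_lt_const (by simpa using by positivity)
    have h2 : ∀ᶠ z in 𝓝 (0 : ℂ), dist (dslope (fun z => F (θ0, z)) 0 z)
        (dslope (fun z => F (θ0, z)) 0 0) < ε / 2 :=
      (Metric.continuousAt_iff'.1 (hd θ0).continuous.continuousAt) _ (by positivity)
    have h3 : ∀ᶠ z in 𝓝 (0 : ℂ), z ∈ ball (0 : ℂ) 1 :=
      isOpen_ball.mem_nhds (mem_ball_self one_pos)
    have h4 := (h1.prod_inl_nhds (0 : ℂ)).and ((h2.and h3).prod_inr_nhds θ0)
    filter_upwards [h4] with p hp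
    obtain ⟨hp1, hp2, hp3⟩ := hp
    have h5 : ‖dslope (fun z => F (p.1, z)) 0 p.2 - dslope (fun z => F (θ0, z)) 0 p.2‖ ≤ ε / 4 := by
      apply norm_le_of_circle (f := fun z => dslope (fun z => F (p.1, z)) 0 z -
        dslope (fun z => F (θ0, z)) 0 z) ((hd _).sub (hd _)) _ (mem_ball_zero_iff.1 hp3).le
      intro z hz
      have hz0 : z ≠ 0 := by
        rintro rfl
        simp at hz
      simp only [dslope_of_ne _ hz0, slope_def_field, sub_zero]
      rw [← sub_div, norm_div, hz, div_one]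
      have e1 := hp1 z (by rw [mem_closedBall_zero_iff, hz])
      have e2 := hp1 0 (by simp)
      have e3 : F (p.1, z) - F (p.1, 0) - (F (θ0, z) - F (θ0, 0)) =
          (F (p.1, z) - F (θ0, z)) - (F (p.1, 0) - F (θ0, 0)) := by ring
      rw [e3]
      have e4 := norm_sub_le (F (p.1, z) - F (θ0, z)) (F (p.1, 0) - F (θ0, 0))
      linarith
    calc dist (dslope (fun z => F (p.1, z)) 0 p.2) (dslope (fun z => F (θ0, z)) 0 0)
        ≤ dist (dslope (fun z => F (p.1, z)) 0 p.2) (dslope (fun z => F (θ0, z)) 0 p.2) +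
          dist (dslope (fun z => F (θ0, z)) 0 p.2) (dslope (fun z => F (θ0, z)) 0 0) :=
          dist_triangle _ _ _
      _ < ε := by
          rw [dist_eq_norm]
          linarith
  · have h1 : ContinuousAt (fun p : T × ℂ => (F p - F (p.1, 0)) / p.2) (θ0, z0) := by
      apply ContinuousAt.div
      · exact (hF.1.sub (hF.1.comp (by fun_prop : Continuous fun q : T × ℂ =>
          (q.1, (0 : ℂ))))).continuousAt
      · exact continuousAt_snd
      · exact hz0
    apply h1.congr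
    have h2 : ∀ᶠ p : T × ℂ in 𝓝 (θ0, z0), p.2 ≠ 0 := continuousAt_snd.eventually_ne hz0
    filter_upwards [h2] with p hp
    rw [dslope_of_ne _ hp, slope_def_field, sub_zero]

/-- the imaginary part of a Laurent family is the imaginary part of an entire family -/
theorem aop (n : ℕ) : ∃ C : ℝ, 0 ≤ C ∧ ∀ F : T × ℂ → ℂ, Ent F → ∃ A : T × ℂ → ℂ, Ent A ∧
    (∀ θ, ∀ z : ℂ, ‖z‖ = 1 → (A (θ, z)).im = ((z ^ n)⁻¹ * F (θ, z)).im) ∧
    ∀ θ, ∀ S : ℝ, (∀ z : ℂ, ‖z‖ = 1 → ‖F (θ, z)‖ ≤ S) → ∀ z : ℂ, ‖z‖ = 1 →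
      ‖A (θ, z)‖ ≤ C * S := by
  induction n with
  | zero =>
    refine ⟨1, zero_le_one, fun F hF => ⟨F, hF, ?_, ?_⟩⟩
    · intro θ z hz
      simp
    · intro θ S hS z hz
      rw [one_mul]; exact hS z hz
  | succ n ih =>
    obtain ⟨C, hC, hA⟩ := ih
    refine ⟨C * 2 + 1, by positivity, fun F hF => ?_⟩
    obtain ⟨A, hA1, hA2, hA3⟩ := hA _ (ent_dslope hF)
    have hc0 : Continuous (fun θ : T => (starRingEnd ℂ) (F (θ, 0))) :=
      Complex.continuous_conj.comp (hF.1.comp (by fun_prop : Continuous fun θ : T => (θ, (0 : ℂ))))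
    refine ⟨fun p => A p - (starRingEnd ℂ) (F (p.1, 0)) * p.2 ^ (n + 1),
      hA1.sub ((ent_param hc0).mul (ent_pow _)), ?_, ?_⟩
    · intro θ z hz
      have hz0 : z ≠ 0 := by
        rintro rfl
        simp at hz
      have h1 := hA2 θ z hz
      simp only [dslope_of_ne _ hz0, slope_def_field, sub_zero] at h1
      simp only [Complex.sub_im]
      rw [h1]
      have h2 : (starRingEnd ℂ) (z ^ (n + 1)) = (z ^ (n + 1))⁻¹ := by
        rw [Complex.inv_def, Complex.normSq_eq_norm_sq, norm_pow, hz]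
        simp
      have h3 : ((starRingEnd ℂ) (F (θ, 0)) * z ^ (n + 1)).im =
          -(((z ^ (n + 1))⁻¹ * F (θ, 0)).im) := by
        rw [← h2, ← Complex.conj_im, map_mul, Complex.conj_conj, mul_comm]
      rw [h3, sub_neg_eq_add, ← Complex.add_im]
      congr 1
      field_simp
      ring
    · intro θ S hS z hz
      have h0 : ‖F (θ, 0)‖ ≤ S := norm_le_of_circle (hF.2 θ) hS (by simp)
      have h1 := hA3 θ (2 * S) (by
        intro w hw
        have hw0 : w ≠ 0 := by
          rintro rfl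
          simp at hw
        simp only [dslope_of_ne _ hw0, slope_def_field, sub_zero]
        rw [norm_div, hw, div_one]
        have := norm_sub_le (F (θ, w)) (F (θ, 0))
        have := hS w hw
        linarith) z hz
      have h2 : ‖(starRingEnd ℂ) (F (θ, 0)) * z ^ (n + 1)‖ ≤ S := by
        rw [norm_mul, norm_pow, hz, one_pow, mul_one, RCLike.norm_conj]
        exact h0
      have h3 := norm_sub_le (A (θ, z)) ((starRingEnd ℂ) (F (θ, 0)) * z ^ (n + 1))
      simp only
      nlinarith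

/-- Laurent families with finite negative part -/
def TrigP (β : C(T × Circle, ℂ)) : Prop :=
  ∃ n : ℕ, ∃ F : T × ℂ → ℂ, Ent F ∧ ∀ θ, ∀ z : Circle, F (θ, z) = (z : ℂ) ^ n * β (θ, z)

theorem trigP_mul {β γ : C(T × Circle, ℂ)} (h1 : TrigP β) (h2 : TrigP γ) : TrigP (β * γ) := by
  obtain ⟨n, F, hF, h1⟩ := h1
  obtain ⟨m, G, hG, h2⟩ := h2
  refine ⟨n + m, fun p => F p * G p, hF.mul hG, fun θ z => ?_⟩
  simp only [h1, h2, ContinuousMap.mul_apply]
  ring

theorem trigP_add {β γ : C(T × Circle, ℂ)} (h1 : TrigP β) (h2 : TrigP γ) : TrigP (β + γ) := by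
  obtain ⟨n, F, hF, h1⟩ := h1
  obtain ⟨m, G, hG, h2⟩ := h2
  refine ⟨n + m, fun p => p.2 ^ m * F p + p.2 ^ n * G p,
    ((ent_pow m).mul hF).add ((ent_pow n).mul hG), fun θ z => ?_⟩
  simp only [h1, h2, ContinuousMap.add_apply]
  ring

theorem trigP_param (f : C(T, ℂ)) : TrigP (f.comp ⟨Prod.fst, continuous_fst⟩ : C(T × Circle, ℂ)) := by
  refine ⟨0, fun p => f p.1, ent_param f.continuous, fun θ z => ?_⟩
  simp

theorem trigP_const (c : ℂ) : TrigP (algebraMap ℂ C(T × Circle, ℂ) c) := by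
  refine ⟨0, fun _ => c, ent_const c, fun θ z => ?_⟩
  simp

/-- the star algebra of Laurent families -/
def trigAlg (T : Type*) [TopologicalSpace T] : StarSubalgebra ℂ C(T × Circle, ℂ) where
  carrier := {β | TrigP β ∧ TrigP (star β)}
  mul_mem' := by
    rintro a b ⟨h1, h2⟩ ⟨h3, h4⟩
    refine ⟨trigP_mul h1 h3, ?_⟩
    rw [star_mul]
    exact trigP_mul h4 h2
  add_mem' := by
    rintro a b ⟨h1, h2⟩ ⟨h3, h4⟩
    refine ⟨trigP_add h1 h3, ?_⟩
    rw [star_add]
    exact trigP_add h2 h4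
  algebraMap_mem' := by
    intro r
    refine ⟨trigP_const r, ?_⟩
    rw [← algebraMap_star_comm]
    exact trigP_const _
  star_mem' := by
    rintro a ⟨h1, h2⟩
    refine ⟨h2, ?_⟩
    rw [star_star]
    exact h1

theorem trig_dense [CompactSpace T] [T2Space T] (β : C(T × Circle, ℂ)) {ε : ℝ} (hε : 0 < ε) :
    ∃ γ : C(T × Circle, ℂ), TrigP γ ∧ ∀ p, ‖γ p - β p‖ < ε := by
  have hsep : (trigAlg T).SeparatesPoints := by
    rintro ⟨θ, z⟩ ⟨θ', z'⟩ hne
    by_cases hz : z = z'
    · have hθ : θ ≠ θ' := by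
        rintro rfl
        exact hne (by rw [hz])
      obtain ⟨f, hf0, hf1, -⟩ := exists_continuous_zero_one_of_isClosed
        (isClosed_singleton (x := θ)) (isClosed_singleton (x := θ')) (by
          rw [disjoint_singleton]; exact hθ)
      set fc : C(T, ℂ) := ⟨fun t => (f t : ℂ), by fun_prop⟩ with hfc
      refine ⟨_, ⟨fc.comp ⟨Prod.fst, continuous_fst⟩, ⟨trigP_param fc, ?_⟩, rfl⟩, ?_⟩
      · have : star (fc.comp ⟨Prod.fst, continuous_fst⟩ : C(T × Circle, ℂ)) =
            (star fc).comp ⟨Prod.fst, continuous_fst⟩ := by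
          ext p
          simp
        rw [this]
        exact trigP_param _
      · simp only [ContinuousMap.comp_apply, ContinuousMap.coe_mk, hfc]
        have e1 := hf0 (mem_singleton θ)
        have e2 := hf1 (mem_singleton θ')
        rw [e1, e2]
        simp
    · set cc : C(T × Circle, ℂ) := ⟨fun p => (p.2 : ℂ), by fun_prop⟩ with hcc
      refine ⟨_, ⟨cc, ⟨⟨0, fun p => p.2 ^ 1, ent_pow 1, ?_⟩,
        ⟨1, fun _ => 1, ent_const 1, ?_⟩⟩, rfl⟩, ?_⟩
      · intro θ z
        simp [hcc]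
      · intro θ z
        simp only [hcc, ContinuousMap.star_apply, ContinuousMap.coe_mk, pow_one, RCLike.star_def]
        rw [Complex.mul_conj, Complex.normSq_eq_norm_sq, Circle.norm_coe]
        simp
      · simp only [hcc, ContinuousMap.coe_mk]
        intro h
        exact hz (Circle.coe_injective h)
  have htop := ContinuousMap.starSubalgebra_topologicalClosure_eq_top_of_separatesPoints
    (trigAlg T) hsep
  have hmem : β ∈ (trigAlg T).topologicalClosure := by rw [htop]; trivial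
  have hmem' : β ∈ closure (trigAlg T : Set C(T × Circle, ℂ)) := by
    rw [← StarSubalgebra.topologicalClosure_coe]
    exact hmem
  obtain ⟨γ, hγ, hd⟩ := Metric.mem_closure_iff.1 hmem' ε hε
  refine ⟨γ, hγ.1, fun p => ?_⟩
  rw [← dist_eq_norm, dist_comm]
  exact lt_of_le_of_lt (ContinuousMap.dist_apply_le_dist p) hd

end Pool.Agent.H801R2.CX
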