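import Mathlib
import Pool.Agent.H801R2.CX.Aop
import Pool.Agent.H801R2.CX.Borsuk

set_option autoImplicit false

open Complex Set Filter Metric Topology

namespace Pool.Agent.H801R2.CX

variable {V : Type*} [NormedAddCommGroup V] [NormedSpace ℂ V]

theorem approxP {D : Set V} {W : V → V → ℝ} {E : V → V → ℂ} (hD : Dom D) (K : Kit D W E)
    {T : Type*} [TopologicalSpace T] [CompactSpace T] [T2Space T] {x v : T × Circle → V}
    (hx : Continuous x) (hv : Continuous v) (hxD : ∀ p, x p ∈ D) (R : ℝ) {ρ η : ℝ}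
    (hρ : ρ < 1) (hη : 0 < η) :
    ∃ n : ℕ, ∃ P : (T × ℂ) → ℂ → ℂ, (∀ m, Ent m → Ent (fun p => P p (m p))) ∧
      ∀ (p : T × Circle) (ξ : ℂ), ‖ξ‖ ≤ R → x p + ξ • v p ∈ D →
        W (x p) (x p + ξ • v p) ≤ ρ →
        ‖((p.2 : ℂ) ^ n)⁻¹ * P (p.1, (p.2 : ℂ)) ξ - E (x p) (x p + ξ • v p)‖ < η := by
  classical
  have hXc : IsCompact (range x) := isCompact_range hx
  have hXD : range x ⊆ D := by
    rintro _ ⟨p, rfl⟩
    exact hxD p
  have hSc := K.Wk (range x) hXD hXc ρ hρ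
  have hop : IsOpen (D ×ˢ D) := hD.op.prod hD.op
  set Y : Set ((T × Circle) × ℂ) := {q | x q.1 + q.2 • v q.1 ∈ D ∧
    W (x q.1) (x q.1 + q.2 • v q.1) ≤ ρ} with hY
  have hΨ : Continuous (fun q : (T × Circle) × ℂ => (x q.1, x q.1 + q.2 • v q.1)) := by fun_prop
  have hYc : IsClosed Y := by
    have h1 := hSc.isClosed.preimage hΨ
    convert h1 using 1
    ext q
    simp only [hY, mem_ofPred_eq, mem_preimage, mem_range_self, true_and]
  -- local polynomials
  have hloc : ∀ p0 : T × Circle, ∃ π : Polynomial ℂ, ∀ ξ : ℂ, (p0, ξ) ∈ Y →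
      ‖π.eval ξ - E (x p0) (x p0 + ξ • v p0)‖ < η / 4 := by
    intro p0
    by_cases h0 : v p0 = 0
    · refine ⟨0, fun ξ _ => ?_⟩
      rw [h0, smul_zero, add_zero, K.Ex _ (hxD p0)]
      simpa using by positivity
    · obtain ⟨h, g, H, h1, h2⟩ := K.rm (x p0) (hxD p0) (v p0) h0
      obtain ⟨π, hπ⟩ := poly_approx (isOpen_sl hD.op (x p0) (v p0)) H hρ
        (K.Ed (x p0) (hxD p0) (v p0)) (ε := η / 4) (by positivity)
      refine ⟨π, fun ξ hξ => ?_⟩
      rw [norm_sub_rev]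
      apply hπ ξ hξ.1
      rw [← h1 ξ hξ.1]
      exact hξ.2
  choose π hπ using hloc
  have hnb : ∀ p0 : T × Circle, ∀ᶠ p in 𝓝 p0, ∀ ξ ∈ closedBall (0 : ℂ) R, (p, ξ) ∈ Y →
      ‖(π p0).eval ξ - E (x p) (x p + ξ • v p)‖ < η / 4 := by
    intro p0
    apply (isCompact_closedBall (0 : ℂ) R).eventually_forall_of_forall_eventually
    intro ξ _
    by_cases hmem : (p0, ξ) ∈ Y
    · have hE : ContinuousAt (fun q : (T × Circle) × ℂ => E (x q.1) (x q.1 + q.2 • v q.1))
          (p0, ξ) := by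
        have h1 : ContinuousAt (fun p : V × V => E p.1 p.2) (x p0, x p0 + ξ • v p0) :=
          K.Ec.continuousAt (hop.mem_nhds ⟨hxD p0, hmem.1⟩)
        exact ContinuousAt.comp_of_eq (y := (x p0, x p0 + ξ • v p0)) h1 hΨ.continuousAt rfl
      have hc : ContinuousAt (fun q : (T × Circle) × ℂ =>
          ‖(π p0).eval q.2 - E (x q.1) (x q.1 + q.2 • v q.1)‖) (p0, ξ) := by
        apply ContinuousAt.norm
        apply ContinuousAt.sub _ hE
        exact ((π p0).continuous.comp continuous_snd).continuousAt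
      filter_upwards [hc.eventually_lt_const (hπ p0 ξ hmem)] with q hq _
      exact hq
    · filter_upwards [hYc.isOpen_compl.mem_nhds hmem] with q hq hq'
      exact absurd hq' hq
  obtain ⟨t, ht⟩ := CompactSpace.elim_nhds_subcover (fun p0 => interior
    {p | ∀ ξ ∈ closedBall (0 : ℂ) R,
    (p, ξ) ∈ Y → ‖(π p0).eval ξ - E (x p) (x p + ξ • v p)‖ < η / 4})
    (fun p0 => interior_mem_nhds.2 (hnb p0))
  obtain ⟨f, hf⟩ := PartitionOfUnity.exists_isSubordinate (X := T × Circle) isClosed_univ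
    (fun i : t => interior {p | ∀ ξ ∈ closedBall (0 : ℂ) R,
    (p, ξ) ∈ Y → ‖(π i).eval ξ - E (x p) (x p + ξ • v p)‖ < η / 4}) (fun _ => isOpen_interior)
    (by
      intro p _
      have hp : p ∈ (⊤ : Set (T × Circle)) := trivial
      rw [← ht] at hp
      simp only [mem_iUnion] at hp ⊢
      obtain ⟨i, hi, hpi⟩ := hp
      exact ⟨⟨i, hi⟩, hpi⟩)
  have hsum : ∀ p, ∑ i : t, f i p = 1 := by
    intro p
    rw [← finsum_eq_sum_of_fintype]
    exact f.sum_eq_one (mem_univ p)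
  -- bound for the polynomials
  have hB : ∀ i : t, ∃ B : ℝ, ∀ ξ ∈ closedBall (0 : ℂ) R, ‖(π i).eval ξ‖ ≤ B := fun i =>
    (isCompact_closedBall (0 : ℂ) R).exists_bound_of_continuousOn (π i).continuous.continuousOn
  choose B hB using hB
  set BB : ℝ := ∑ i : t, max (B i) 0 with hBB
  have hBB0 : 0 ≤ BB := Finset.sum_nonneg fun i _ => le_max_right _ _
  have hBle : ∀ i : t, ∀ ξ ∈ closedBall (0 : ℂ) R, ‖(π i).eval ξ‖ ≤ BB := by
    intro i ξ hξ
    refine (hB i ξ hξ).trans ((le_max_left (B i) 0).trans ?_)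
    exact Finset.single_le_sum (f := fun i => max (B i) 0) (fun i _ => le_max_right _ _)
      (Finset.mem_univ i)
  set N : ℝ := (Fintype.card t : ℝ) with hN
  have hN0 : 0 ≤ N := Nat.cast_nonneg _
  set δ : ℝ := η / (4 * (N + 1) * (BB + 1)) with hδ
  have hδ0 : 0 < δ := by positivity
  have htr : ∀ i : t, ∃ γ : C(T × Circle, ℂ), TrigP γ ∧ ∀ p, ‖γ p - (f i p : ℂ)‖ < δ := by
    intro i
    exact trig_dense (⟨fun p => (f i p : ℂ), by fun_prop⟩ : C(T × Circle, ℂ)) hδ0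
  choose γ hγ hγδ using htr
  choose n F hF hFγ using hγ
  refine ⟨∑ i : t, n i, fun p ξ => ∑ i : t, p.2 ^ ((∑ j : t, n j) - n i) * F i p *
    (π i).eval ξ, ?_, ?_⟩
  · intro m hm
    apply ent_sum
    intro i _
    exact ((ent_pow _).mul (hF i)).mul (ent_poly _ hm)
  · intro p ξ hξ hξD hξW
    have hmem : (p, ξ) ∈ Y := ⟨hξD, hξW⟩
    have hξb : ξ ∈ closedBall (0 : ℂ) R := mem_closedBall_zero_iff.2 hξ
    have hz0 : (p.2 : ℂ) ≠ 0 := by
      rw [← norm_ne_zero_iff, Circle.norm_coe]; exact one_ne_zero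
    have h1 : ((p.2 : ℂ) ^ (∑ i : t, n i))⁻¹ * (∑ i : t, (p.2 : ℂ) ^ ((∑ j : t, n j) - n i) *
        F i (p.1, (p.2 : ℂ)) * (π i).eval ξ) = ∑ i : t, γ i p * (π i).eval ξ := by
      rw [Finset.mul_sum]
      apply Finset.sum_congr rfl
      intro i _
      have h2 : n i ≤ ∑ j : t, n j := Finset.single_le_sum (f := n) (fun i _ => Nat.zero_le _)
        (Finset.mem_univ i)
      have h3 : (p.2 : ℂ) ^ ((∑ j : t, n j) - n i) * (p.2 : ℂ) ^ (n i) =
          (p.2 : ℂ) ^ (∑ j : t, n j) := by rw [← pow_add, Nat.sub_add_cancel h2]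
      have h4 : (p.2 : ℂ) ^ (∑ j : t, n j) ≠ 0 := pow_ne_zero _ hz0
      have h5 := hFγ i p.1 p.2
      rw [h5]
      calc ((p.2 : ℂ) ^ (∑ j : t, n j))⁻¹ * ((p.2 : ℂ) ^ ((∑ j : t, n j) - n i) *
            ((p.2 : ℂ) ^ n i * γ i (p.1, p.2)) * (π i).eval ξ)
          = ((p.2 : ℂ) ^ (∑ j : t, n j))⁻¹ * ((p.2 : ℂ) ^ ((∑ j : t, n j) - n i) *
            (p.2 : ℂ) ^ n i) * γ i (p.1, p.2) * (π i).eval ξ := by ring
        _ = γ i p * (π i).eval ξ := by rw [h3, inv_mul_cancel₀ h4, one_mul]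
    rw [h1]
    have h2 : ∑ i : t, γ i p * (π i).eval ξ - E (x p) (x p + ξ • v p) =
        ∑ i : t, (γ i p - (f i p : ℂ)) * (π i).eval ξ +
        ∑ i : t, (f i p : ℂ) * ((π i).eval ξ - E (x p) (x p + ξ • v p)) := by
      have h3 : (∑ i : t, (f i p : ℂ)) = 1 := by
        have := hsum p
        exact_mod_cast this
      rw [← Finset.sum_add_distrib]
      have h4 : ∀ i : t, (γ i p - (f i p : ℂ)) * (π i).eval ξ +
          (f i p : ℂ) * ((π i).eval ξ - E (x p) (x p + ξ • v p)) =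
          γ i p * (π i).eval ξ - (f i p : ℂ) * E (x p) (x p + ξ • v p) := fun i => by ring
      rw [Finset.sum_congr rfl fun i _ => h4 i, Finset.sum_sub_distrib, ← Finset.sum_mul, h3,
        one_mul]
    rw [h2]
    have h5 : ‖∑ i : t, (γ i p - (f i p : ℂ)) * (π i).eval ξ‖ ≤ N * (δ * BB) := by
      calc ‖∑ i : t, (γ i p - (f i p : ℂ)) * (π i).eval ξ‖
          ≤ ∑ i : t, ‖(γ i p - (f i p : ℂ)) * (π i).eval ξ‖ := norm_sum_le _ _
        _ ≤ ∑ i : t, δ * BB := by
            apply Finset.sum_le_sum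
            intro i _
            rw [norm_mul]
            exact mul_le_mul (hγδ i p).le (hBle i ξ hξb) (norm_nonneg _) hδ0.le
        _ = N * (δ * BB) := by
            rw [Finset.sum_const, nsmul_eq_mul, Finset.card_univ]
    have h6 : N * (δ * BB) ≤ η / 4 := by
      rw [hδ, ← mul_assoc, mul_div_assoc', div_mul_eq_mul_div, div_le_div_iff₀ (by positivity)
        (by norm_num)]
      have e1 : N * BB ≤ (N + 1) * (BB + 1) := by nlinarith
      nlinarith [mul_le_mul_of_nonneg_left e1 hη.le]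
    have h7 : ‖∑ i : t, (f i p : ℂ) * ((π i).eval ξ - E (x p) (x p + ξ • v p))‖ ≤ η / 4 := by
      calc ‖∑ i : t, (f i p : ℂ) * ((π i).eval ξ - E (x p) (x p + ξ • v p))‖
          ≤ ∑ i : t, ‖(f i p : ℂ) * ((π i).eval ξ - E (x p) (x p + ξ • v p))‖ := norm_sum_le _ _
        _ ≤ ∑ i : t, f i p * (η / 4) := by
            apply Finset.sum_le_sum
            intro i _
            rw [norm_mul, Complex.norm_real, Real.norm_of_nonneg (f.nonneg i p)]
            by_cases h0 : f i p = 0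
            · rw [h0, zero_mul, zero_mul]
            · have h8 : p ∈ interior {p | ∀ ξ ∈ closedBall (0 : ℂ) R,
                  (p, ξ) ∈ Y → ‖(π i).eval ξ - E (x p) (x p + ξ • v p)‖ < η / 4} :=
                hf i (subset_closure h0)
              exact mul_le_mul_of_nonneg_left (interior_subset h8 ξ hξb hmem).le (f.nonneg i p)
        _ = η / 4 := by rw [← Finset.sum_mul, hsum, one_mul]
    calc _ ≤ _ := norm_add_le _ _
      _ ≤ η / 4 + η / 4 := add_le_add (h5.trans h6) h7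
      _ < η := by linarith

end Pool.Agent.H801R2.CX
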