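import Mathlib
import Pool.Agent.H801R2.CX.EW

set_option autoImplicit false

open Complex Set Filter Metric Topology

namespace Pool.Agent.H801R2.CX

variable {V : Type*} [NormedAddCommGroup V] [NormedSpace ℂ V]

/-- one variable decay estimate -/
theorem decay {g : ℂ → ℂ} {Ω : Set ℂ} (hΩ : IsOpen Ω) (hg : DifferentiableOn ℂ g Ω)
    {e : ℂ → ℂ} (he : ∀ z ∈ Ω, deriv g z * (z * exp (e z)) = g z) {A : ℂ} {κ ε : ℝ}
    (hz : ∀ s ∈ Icc (0 : ℝ) ε, (1 - (s : ℂ) * exp A) ∈ Ω ∧
      κ < (exp (A - e (1 - (s : ℂ) * exp A)) / (1 - (s : ℂ) * exp A)).re) {t : ℝ}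
    (ht : t ∈ Icc (0 : ℝ) ε) (hz0 : ∀ s ∈ Icc (0 : ℝ) ε, (1 - (s : ℂ) * exp A) ≠ 0) :
    ‖g (1 - (t : ℂ) * exp A)‖ ≤ Real.exp (-(κ * t)) * ‖g 1‖ := by
  have hder : ∀ s ∈ Icc (0 : ℝ) ε, HasDerivAt (fun s : ℝ => g (1 - (s : ℂ) * exp A))
      (deriv g (1 - (s : ℂ) * exp A) * (-exp A)) s := by
    intro s hs
    have h1 : HasDerivAt g (deriv g (1 - (s : ℂ) * exp A)) (1 - (s : ℂ) * exp A) :=
      (hg.differentiableAt (hΩ.mem_nhds (hz s hs).1)).hasDerivAt
    have h2 : HasDerivAt (fun s : ℝ => 1 - (s : ℂ) * exp A) (-exp A) s := by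
      have h3 : HasDerivAt (fun s : ℝ => (s : ℂ)) 1 s := by
        simpa using (hasDerivAt_id s).ofReal_comp
      simpa using (h3.mul_const (exp A)).const_sub 1
    have h4 := h1.comp_of_eq s h2 rfl
    exact h4
  set f : ℝ → ℝ := fun s => Real.exp (2 * κ * s) * ‖g (1 - (s : ℂ) * exp A)‖ ^ 2 with hf
  have hfd : ∀ s ∈ Icc (0 : ℝ) ε, HasDerivAt f
      ((Real.exp (2 * κ * s) * (2 * κ)) * ‖g (1 - (s : ℂ) * exp A)‖ ^ 2 +
      Real.exp (2 * κ * s) * (2 * inner ℝ (g (1 - (s : ℂ) * exp A))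
        (deriv g (1 - (s : ℂ) * exp A) * (-exp A)))) s := by
    intro s hs
    have h1 : HasDerivAt (fun s : ℝ => Real.exp (2 * κ * s)) (Real.exp (2 * κ * s) * (2 * κ)) s := by
      have h2 : HasDerivAt (fun s : ℝ => 2 * κ * s) (2 * κ) s := by
        simpa using (hasDerivAt_id s).const_mul (2 * κ)
      exact h2.exp
    exact h1.mul (hder s hs).norm_sq
  have hanti : AntitoneOn f (Icc 0 ε) := by
    apply antitoneOn_of_deriv_nonpos (convex_Icc 0 ε)
    · intro s hs
      exact (hfd s hs).continuousAt.continuousWithinAt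
    · intro s hs
      rw [interior_Icc] at hs
      exact (hfd s (Ioo_subset_Icc_self hs)).differentiableAt.differentiableWithinAt
    · intro s hs
      rw [interior_Icc] at hs
      have hs' := Ioo_subset_Icc_self hs
      rw [(hfd s hs').deriv]
      obtain ⟨hzΩ, hzκ⟩ := hz s hs'
      have hne := hz0 s hs'
      set z : ℂ := 1 - (s : ℂ) * exp A with hzdef
      have h1 := he z hzΩ
      have h2 : deriv g z * (-exp A) = -(g z * (exp (A - e z) / z)) := by
        rw [Complex.exp_sub, ← h1]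
        have h3 : exp (e z) ≠ 0 := Complex.exp_ne_zero _
        rw [h1]
        field_simp
        rw [← h1]
        ring
      have h4 : inner ℝ (g z) (deriv g z * (-exp A)) = -(‖g z‖ ^ 2 * (exp (A - e z) / z).re) := by
        rw [h2, Complex.inner]
        have h5 : -(g z * (exp (A - e z) / z)) * (starRingEnd ℂ) (g z) =
            ((-(‖g z‖ ^ 2) : ℝ) : ℂ) * (exp (A - e z) / z) := by
          have h6 : (starRingEnd ℂ) (g z) * g z = ((‖g z‖ ^ 2 : ℝ) : ℂ) := by
            rw [mul_comm, Complex.mul_conj, Complex.normSq_eq_norm_sq]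
          push_cast at h6 ⊢
          linear_combination (-(exp (A - e z) / z)) * h6
        rw [h5, Complex.re_ofReal_mul]
        ring
      rw [h4]
      have h7 : 0 ≤ Real.exp (2 * κ * s) * ‖g z‖ ^ 2 := by positivity
      nlinarith [mul_nonneg h7 (sub_nonneg.2 hzκ.le)]
  have h0 : (0 : ℝ) ∈ Icc (0 : ℝ) ε := ⟨le_rfl, ht.1.trans ht.2⟩
  have h1 := hanti h0 ht ht.1
  rw [hf] at h1
  simp only [mul_zero, Real.exp_zero, one_mul, Complex.ofReal_zero, zero_mul, sub_zero] at h1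
  have h2 : ‖g (1 - (t : ℂ) * exp A)‖ ^ 2 ≤ (Real.exp (-(κ * t)) * ‖g 1‖) ^ 2 := by
    have h3 : (Real.exp (-(κ * t)) * ‖g 1‖) ^ 2 = Real.exp (-(2 * κ * t)) * ‖g 1‖ ^ 2 := by
      rw [mul_pow, ← Real.exp_nat_mul]
      congr 2
      push_cast
      ring
    rw [h3]
    have h4 : Real.exp (-(2 * κ * t)) * (Real.exp (2 * κ * t) * ‖g (1 - (t : ℂ) * exp A)‖ ^ 2) =
        ‖g (1 - (t : ℂ) * exp A)‖ ^ 2 := by
      rw [← mul_assoc, ← Real.exp_add]
      simp
    rw [← h4]
    exact mul_le_mul_of_nonneg_left h1 (Real.exp_pos _).le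
  exact (pow_le_pow_iff_left₀ (norm_nonneg _) (by positivity) two_ne_zero).1 h2

theorem step {D : Set V} {W : V → V → ℝ} {E : V → V → ℂ} (hD : Dom D) (K : Kit D W E)
    {X : Set V} (hXD : X ⊆ D) (hX : IsCompact X) {ρ : ℝ} (hρ : ρ < 1) (C : ℝ) :
    ∃ ε0 > 0, ∃ κ > 0, ∀ x ∈ X, ∀ y ∈ D, W x y ≤ ρ → ∀ A : ℂ, ‖A‖ ≤ C →
      |A.im - (E x y).im| ≤ Real.pi / 4 → ∀ t ∈ Icc (0 : ℝ) ε0,
      x + (1 - (t : ℂ) * exp A) • (y - x) ∈ D ∧
      W x (x + (1 - (t : ℂ) * exp A) • (y - x)) ≤ Real.exp (-(κ * t)) * W x y := by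
  set S0 : Set (V × V) := {p : V × V | p.1 ∈ X ∧ p.2 ∈ D ∧ W p.1 p.2 ≤ ρ} with hS0
  have hS0c : IsCompact S0 := K.Wk X hXD hX ρ hρ
  have hS0D : S0 ⊆ D ×ˢ D := fun p hp => ⟨hXD hp.1, hp.2.1⟩
  obtain ⟨M, hM⟩ := hS0c.exists_bound_of_continuousOn (K.Ec.mono hS0D)
  set κ : ℝ := Real.exp (-C - M) * Real.cos (Real.pi / 4) / 2 with hκ
  have hcos : 0 < Real.cos (Real.pi / 4) := by
    rw [Real.cos_pi_div_four]; positivity
  have hκ0 : 0 < κ := by positivity
  have hS1c : IsCompact (S0 ×ˢ closedBall (0 : ℂ) C) := hS0c.prod (isCompact_closedBall _ _)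
  have hop : IsOpen (D ×ˢ D) := hD.op.prod hD.op
  have hev : ∀ᶠ t : ℝ in 𝓝 0, ∀ p ∈ S0 ×ˢ closedBall (0 : ℂ) C,
      |p.2.im - (E p.1.1 p.1.2).im| ≤ Real.pi / 4 →
      ((p.1.1 + (1 - (t : ℂ) * exp p.2) • (p.1.2 - p.1.1) ∈ D ∧ (1 - (t : ℂ) * exp p.2) ≠ 0) ∧
      κ < (exp (p.2 - E p.1.1 (p.1.1 + (1 - (t : ℂ) * exp p.2) • (p.1.2 - p.1.1))) /
        (1 - (t : ℂ) * exp p.2)).re) := by
    apply hS1c.eventually_forall_of_forall_eventually
    rintro ⟨⟨x, y⟩, A⟩ ⟨hxy, hA⟩
    simp only at hxy hA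
    have hxD : x ∈ D := hXD hxy.1
    have hyD : y ∈ D := hxy.2.1
    have hEat : ContinuousAt (fun p : V × V => E p.1 p.2) (x, y) :=
      K.Ec.continuousAt (hop.mem_nhds ⟨hxD, hyD⟩)
    by_cases hcase : |A.im - (E x y).im| ≤ Real.pi / 4
    · -- the point moves continuously
      have hpt : ContinuousAt (fun q : ℝ × ((V × V) × ℂ) =>
          q.2.1.1 + (1 - (q.1 : ℂ) * exp q.2.2) • (q.2.1.2 - q.2.1.1)) (0, ((x, y), A)) := by
        have : Continuous (fun q : ℝ × ((V × V) × ℂ) =>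
          q.2.1.1 + (1 - (q.1 : ℂ) * exp q.2.2) • (q.2.1.2 - q.2.1.1)) := by fun_prop
        exact this.continuousAt
      have hpt0 : x + (1 - ((0 : ℝ) : ℂ) * exp A) • (y - x) = y := by simp
      have hz : ContinuousAt (fun q : ℝ × ((V × V) × ℂ) => (1 - (q.1 : ℂ) * exp q.2.2))
          (0, ((x, y), A)) := by
        have : Continuous (fun q : ℝ × ((V × V) × ℂ) => (1 - (q.1 : ℂ) * exp q.2.2)) := by fun_prop
        exact this.continuousAt
      have hE2 : ContinuousAt (fun q : ℝ × ((V × V) × ℂ) =>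
          E q.2.1.1 (q.2.1.1 + (1 - (q.1 : ℂ) * exp q.2.2) • (q.2.1.2 - q.2.1.1)))
          (0, ((x, y), A)) := by
        have h1 : ContinuousAt (fun q : ℝ × ((V × V) × ℂ) =>
          ((q.2.1.1, q.2.1.1 + (1 - (q.1 : ℂ) * exp q.2.2) • (q.2.1.2 - q.2.1.1)) : V × V))
          (0, ((x, y), A)) := by
          apply ContinuousAt.prodMk _ hpt
          have : Continuous (fun q : ℝ × ((V × V) × ℂ) => q.2.1.1) := by fun_prop
          exact this.continuousAt
        apply ContinuousAt.comp_of_eq (y := (x, y)) hEat h1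
        simp
      have hF : ContinuousAt (fun q : ℝ × ((V × V) × ℂ) =>
          (exp (q.2.2 - E q.2.1.1 (q.2.1.1 + (1 - (q.1 : ℂ) * exp q.2.2) •
            (q.2.1.2 - q.2.1.1))) / (1 - (q.1 : ℂ) * exp q.2.2)).re) (0, ((x, y), A)) := by
        apply Complex.continuous_re.continuousAt.comp
        apply ContinuousAt.div
        · apply ContinuousAt.cexp
          apply ContinuousAt.sub _ hE2
          have : Continuous (fun q : ℝ × ((V × V) × ℂ) => q.2.2) := by fun_prop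
          exact this.continuousAt
        · exact hz
        · simp
      have hval : κ < (exp (A - E x (x + (1 - ((0 : ℝ) : ℂ) * exp A) • (y - x))) /
          (1 - ((0 : ℝ) : ℂ) * exp A)).re := by
        rw [hpt0]
        simp only [Complex.ofReal_zero, zero_mul, sub_zero, div_one]
        rw [Complex.exp_re]
        have h1 : -C - M ≤ (A - E x y).re := by
          have h2 : ‖A‖ ≤ C := mem_closedBall_zero_iff.1 hA
          have h3 := hM (x, y) hxy
          have h4 := (abs_le.1 (Complex.abs_re_le_norm (A - E x y))).1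
          have h5 := norm_sub_le A (E x y)
          simp only at h3
          linarith
        have h6 : Real.cos (Real.pi / 4) ≤ Real.cos (A - E x y).im := by
          rw [← Real.cos_abs (A - E x y).im]
          apply Real.cos_le_cos_of_nonneg_of_le_pi (abs_nonneg _) _
          · rw [Complex.sub_im]; exact hcase
          · linarith [Real.pi_pos]
        have h7 : Real.exp (-C - M) * Real.cos (Real.pi / 4) ≤
            Real.exp (A - E x y).re * Real.cos (A - E x y).im :=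
          mul_le_mul (Real.exp_le_exp.2 h1) h6 hcos.le (Real.exp_pos _).le
        have h8 : 0 < Real.exp (-C - M) * Real.cos (Real.pi / 4) := by positivity
        rw [hκ]
        linarith
      have e1 := hpt.eventually (hD.op.mem_nhds (by beta_reduce; rw [hpt0]; exact hyD))
      have e2 := hz.eventually_ne (show (1 - ((0 : ℝ) : ℂ) * exp A) ≠ 0 by simp)
      have e3 := hF.eventually (lt_mem_nhds hval)
      filter_upwards [e1, e2, e3] with q h1 h2 h3 _
      exact ⟨⟨h1, h2⟩, h3⟩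
    · have h1 : ContinuousAt (fun q : ℝ × ((V × V) × ℂ) =>
          |q.2.2.im - (E q.2.1.1 q.2.1.2).im|) (0, ((x, y), A)) := by
        apply ContinuousAt.abs
        apply ContinuousAt.sub
        · have : Continuous (fun q : ℝ × ((V × V) × ℂ) => q.2.2.im) := by fun_prop
          exact this.continuousAt
        · apply Complex.continuous_im.continuousAt.comp
          have h2 : ContinuousAt (fun q : ℝ × ((V × V) × ℂ) => q.2.1) (0, ((x, y), A)) := by
            have : Continuous (fun q : ℝ × ((V × V) × ℂ) => q.2.1) := by fun_prop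
            exact this.continuousAt
          exact ContinuousAt.comp_of_eq (y := (x, y)) hEat h2 rfl
      have h3 := h1.eventually (lt_mem_nhds (not_le.1 hcase))
      filter_upwards [h3] with q hq hq'
      exact absurd hq' (not_le.2 hq)
  obtain ⟨ε, hε, hev'⟩ := Metric.eventually_nhds_iff_ball.1 hev
  refine ⟨ε / 2, by positivity, κ, hκ0, ?_⟩
  intro x hx y hy hWy A hA hIm
  have hxD := hXD hx
  have hall : ∀ s ∈ Icc (0 : ℝ) (ε / 2), (x + (1 - (s : ℂ) * exp A) • (y - x) ∈ D ∧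
      (1 - (s : ℂ) * exp A) ≠ 0) ∧
      κ < (exp (A - E x (x + (1 - (s : ℂ) * exp A) • (y - x))) / (1 - (s : ℂ) * exp A)).re := by
    intro s hs
    apply hev' s _ ((x, y), A) ⟨⟨hx, hy, hWy⟩, mem_closedBall_zero_iff.2 hA⟩ hIm
    rw [mem_ball_zero_iff, Real.norm_of_nonneg hs.1]
    linarith [hs.2]
  intro t ht
  refine ⟨(hall t ht).1.1, ?_⟩
  by_cases hyx : y = x
  · subst hyx
    rw [sub_self, smul_zero, add_zero, K.Wx _ hy, mul_zero]
  · obtain ⟨h, g, H, h1, h2⟩ := K.rm x hxD (y - x) (sub_ne_zero.2 hyx)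
    have h3 := decay (isOpen_sl hD.op x (y - x)) H.gd (e := fun ξ => E x (x + ξ • (y - x))) h2
      (A := A) (κ := κ) (ε := ε / 2) (fun s hs => ⟨(hall s hs).1.1, (hall s hs).2⟩) ht
      (fun s hs => (hall s hs).1.2)
    rw [← h1 _ (hall t ht).1.1, ← h1 1 (by
      change x + (1 : ℂ) • (y - x) ∈ D
      rw [one_smul, add_sub_cancel]; exact hy), one_smul, add_sub_cancel] at h3
    exact h3

end Pool.Agent.H801R2.CX
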