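import Mathlib
import Pool.Agent.H801R2.CX.Approx
import Pool.Agent.H801R2.CX.Step

set_option autoImplicit false

open Complex Set Filter Metric Topology

namespace Pool.Agent.H801R2.CX

variable {V : Type*} [NormedAddCommGroup V] [NormedSpace ℂ V]

section

variable {D : Set V} {W : V → V → ℝ} {E : V → V → ℂ} {T : Type*} [TopologicalSpace T]

/-- admissible multipliers -/
def MM (D : Set V) (x v : T × Circle → V) : Set C(T × ℂ, ℂ) :=
  {m | Ent m ∧ ∀ p : T × Circle, x p + m (p.1, (p.2 : ℂ)) • v p ∈ D}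

theorem unif_diag (hD : Dom D) (K : Kit D W E) {X : Set V} (hXD : X ⊆ D) (hX : IsCompact X)
    {η : ℝ} (hη : 0 < η) :
    ∃ δ > 0, ∀ x ∈ X, ∀ w : V, ‖w‖ ≤ δ → x + w ∈ D ∧ ‖E x (x + w)‖ < η := by
  have hop : IsOpen (D ×ˢ D) := hD.op.prod hD.op
  have h1 : ∀ᶠ w : V in 𝓝 0, ∀ x ∈ X, x + w ∈ D ∧ ‖E x (x + w)‖ < η := by
    apply hX.eventually_forall_of_forall_eventually
    intro x hx
    have hc : Continuous (fun q : V × V => (q.2, q.2 + q.1)) := by fun_prop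
    have hE : ContinuousAt (fun q : V × V => E q.2 (q.2 + q.1)) (0, x) := by
      apply ContinuousAt.comp_of_eq (y := (x, x)) (g := fun p : V × V => E p.1 p.2)
        (f := fun q : V × V => (q.2, q.2 + q.1))
      · exact K.Ec.continuousAt (hop.mem_nhds ⟨hXD hx, hXD hx⟩)
      · exact hc.continuousAt
      · simp
    have hc2 : Continuous (fun q : V × V => q.2 + q.1) := by fun_prop
    have e1 : ∀ᶠ q : V × V in 𝓝 (0, x), q.2 + q.1 ∈ D :=
      (hc2.tendsto (0, x)).eventually (hD.op.mem_nhds (by simpa using hXD hx))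
    have e2 : ∀ᶠ q : V × V in 𝓝 (0, x), ‖E q.2 (q.2 + q.1)‖ < η := by
      apply hE.norm.eventually_lt_const
      simp only [add_zero]
      rw [K.Ex x (hXD hx), norm_zero]
      exact hη
    exact e1.and e2
  obtain ⟨δ, hδ, h2⟩ := Metric.eventually_nhds_iff_ball.1 h1
  refine ⟨δ / 2, by positivity, fun x hx w hw => h2 w ?_ x hx⟩
  rw [mem_ball_zero_iff]
  linarith

theorem small_W (K : Kit D W E) {X : Set V} (hXD : X ⊆ D) (hX : IsCompact X)
    {ρ : ℝ} (hρ : ρ < 1) {δ : ℝ} (hδ : 0 < δ) :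
    ∃ δ1 > 0, ∀ x ∈ X, ∀ y ∈ D, W x y ≤ ρ → W x y < δ1 → ‖y - x‖ ≤ δ := by
  set S : Set (V × V) := {p : V × V | p.1 ∈ X ∧ p.2 ∈ D ∧ W p.1 p.2 ≤ ρ} ∩
    {p | δ ≤ ‖p.2 - p.1‖} with hS
  have hSc : IsCompact S := (K.Wk X hXD hX ρ hρ).inter_right
    (isClosed_le continuous_const (by fun_prop))
  by_cases hne : S.Nonempty
  · obtain ⟨p0, hp0, hmin⟩ := hSc.exists_isMinOn hne (K.Wc.mono fun p hp => ⟨hXD hp.1.1, hp.1.2.1⟩)
    have hpos : 0 < W p0.1 p0.2 := by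
      have h1 := (K.Wlt p0.1 (hXD hp0.1.1) p0.2 hp0.1.2.1).1
      rcases h1.lt_or_eq with h2 | h2
      · exact h2
      · exfalso
        have h3 := K.W0 p0.1 (hXD hp0.1.1) p0.2 hp0.1.2.1 h2.symm
        have h4 : δ ≤ ‖p0.2 - p0.1‖ := hp0.2
        rw [h3, sub_self, norm_zero] at h4
        linarith
    refine ⟨W p0.1 p0.2, hpos, fun x hx y hy h1 h2 => ?_⟩
    by_contra hcon
    have h3 : (x, y) ∈ S := ⟨⟨hx, hy, h1⟩, (not_le.1 hcon).le⟩
    have h4 : W p0.1 p0.2 ≤ W x y := hmin h3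
    linarith
  · refine ⟨1, one_pos, fun x hx y hy h1 _ => ?_⟩
    by_contra hcon
    exact hne ⟨(x, y), ⟨hx, hy, h1⟩, (not_le.1 hcon).le⟩

theorem norm_one_sub_le {A : ℂ} {t C : ℝ} (hA : ‖A‖ ≤ C) (hIm : |A.im| ≤ Real.pi / 4)
    (ht0 : 0 ≤ t) (ht : t ≤ Real.exp (-C)) : ‖1 - (t : ℂ) * exp A‖ ≤ 1 := by
  have h1 : ‖1 - (t : ℂ) * exp A‖ ^ 2 ≤ 1 ^ 2 := by
    rw [← Complex.normSq_eq_norm_sq, Complex.normSq_apply]
    simp only [Complex.sub_re, Complex.one_re, Complex.re_ofReal_mul, Complex.sub_im,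
      Complex.one_im, Complex.im_ofReal_mul, Complex.exp_re, Complex.exp_im]
    set r := Real.exp A.re with hr
    have hr0 : 0 < r := Real.exp_pos _
    have hc : (1 : ℝ) / 2 ≤ Real.cos A.im := by
      have h2 : Real.cos (Real.pi / 4) ≤ Real.cos A.im := by
        rw [← Real.cos_abs A.im]
        apply Real.cos_le_cos_of_nonneg_of_le_pi (abs_nonneg _) _ hIm
        linarith [Real.pi_pos]
      rw [Real.cos_pi_div_four] at h2
      have h3 : (1 : ℝ) ≤ Real.sqrt 2 := by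
        rw [Real.one_le_sqrt]; norm_num
      linarith
    have htr : t * r ≤ 1 := by
      have h4 : r ≤ Real.exp C := by
        apply Real.exp_le_exp.2
        exact (le_abs_self _).trans ((Complex.abs_re_le_norm A).trans hA)
      calc t * r ≤ Real.exp (-C) * Real.exp C := mul_le_mul ht h4 hr0.le (Real.exp_pos _).le
        _ = 1 := by rw [← Real.exp_add]; simp
    have htr0 : 0 ≤ t * r := by positivity
    have hsc := Real.sin_sq_add_cos_sq A.im
    have e1 : (1 - t * (r * Real.cos A.im)) * (1 - t * (r * Real.cos A.im)) +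
        (0 - t * (r * Real.sin A.im)) * (0 - t * (r * Real.sin A.im)) =
        1 - 2 * (t * r) * Real.cos A.im + (t * r) ^ 2 *
        (Real.sin A.im ^ 2 + Real.cos A.im ^ 2) := by ring
    rw [e1, hsc]
    nlinarith
  exact (pow_le_pow_iff_left₀ (norm_nonneg _) zero_le_one two_ne_zero).1 h1

theorem joined_line [CompactSpace T] {m : C(T × ℂ, ℂ)} {x v : T × Circle → V} {f : ℝ → T × ℂ → ℂ}
    (hf : Continuous (fun q : ℝ × (T × ℂ) => f q.1 q.2)) (he : ∀ s ∈ Icc (0 : ℝ) 1, Ent (f s))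
    (hD : ∀ s ∈ Icc (0 : ℝ) 1, ∀ p : T × Circle, x p + f s (p.1, (p.2 : ℂ)) • v p ∈ D)
    {m' : C(T × ℂ, ℂ)} (h0 : ∀ p, f 0 p = m p) (h1 : ∀ p, f 1 p = m' p) :
    JoinedIn (MM D x v) m m' := by
  have hfs : ∀ s, Continuous (f s) := fun s =>
    hf.comp (by fun_prop : Continuous fun p : T × ℂ => (s, p))
  set F : ℝ → C(T × ℂ, ℂ) := fun s => ⟨f s, hfs s⟩ with hF
  have hFc : Continuous F := ContinuousMap.continuous_of_continuous_uncurry F hf
  apply JoinedIn.ofLine (f := F) hFc.continuousOn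
  · ext p; exact h0 p
  · ext p; exact h1 p
  · rintro _ ⟨s, hs, rfl⟩
    exact ⟨he s hs, hD s hs⟩

theorem lemS_joined (hD : Dom D) (K : Kit D W E) [CompactSpace T] [T2Space T]
    {x v : T × Circle → V} (hx : Continuous x) (hv : Continuous v) (hxD : ∀ p, x p ∈ D)
    (hyD : ∀ p, x p + v p ∈ D) :
    JoinedIn (MM D x v) (ContinuousMap.const _ 1) (ContinuousMap.const _ 0) := by
  classical
  have hXc : IsCompact (range x) := isCompact_range hx
  have hXD : range x ⊆ D := by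
    rintro _ ⟨p, rfl⟩
    exact hxD p
  have hop : IsOpen (D ×ˢ D) := hD.op.prod hD.op
  -- the initial bound
  obtain ⟨ρ, hρ0, hρ1, hρ⟩ : ∃ ρ : ℝ, 0 ≤ ρ ∧ ρ < 1 ∧ ∀ p, W (x p) (x p + v p) ≤ ρ := by
    have hc : Continuous (fun p => W (x p) (x p + v p)) := by
      apply K.Wc.comp_continuous (by fun_prop : Continuous fun p => (x p, x p + v p))
      exact fun p => ⟨hxD p, hyD p⟩
    by_cases hne : Nonempty (T × Circle)
    · obtain ⟨p0, -, hmax⟩ := isCompact_univ.exists_isMaxOn (univ_nonempty (α := T × Circle))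
        hc.continuousOn
      exact ⟨_, (K.Wlt _ (hxD p0) _ (hyD p0)).1, (K.Wlt _ (hxD p0) _ (hyD p0)).2,
        fun p => hmax (mem_univ p)⟩
    · exact ⟨0, le_rfl, one_pos, fun p => absurd ⟨p⟩ hne⟩
  obtain ⟨δ0, hδ0, hdiag⟩ := unif_diag hD K hXD hXc (η := Real.pi / 8) (by positivity)
  obtain ⟨RD, hRD⟩ := hD.bd.subset_closedBall (0 : V)
  set R : ℝ := max 1 (2 * RD / δ0) with hR
  obtain ⟨n, P, hP1, hP2⟩ := approxP hD K hx hv hxD R hρ1 (η := Real.pi / 8) (by positivity)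
  obtain ⟨Cn, hCn, hA⟩ := aop (T := T) n
  obtain ⟨ME, hME⟩ := (K.Wk _ hXD hXc ρ hρ1).exists_bound_of_continuousOn
    (K.Ec.mono fun p hp => ⟨hXD hp.1, hp.2.1⟩)
  set C : ℝ := Cn * (ME + Real.pi / 8) with hC
  obtain ⟨ε0, hε0, κ, hκ, hstep⟩ := step hD K hXD hXc hρ1 C
  set ε : ℝ := min ε0 (Real.exp (-C)) with hε
  have hεp : 0 < ε := lt_min hε0 (Real.exp_pos _)
  -- the one step lemma
  have hone : ∀ m ∈ MM D x v, (∀ p, W (x p) (x p + m (p.1, (p.2 : ℂ)) • v p) ≤ ρ) →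
      (∀ p, ‖v p‖ ≤ δ0 → ‖m (p.1, (p.2 : ℂ))‖ ≤ 1) →
      ∃ m' ∈ MM D x v, (∀ p, W (x p) (x p + m' (p.1, (p.2 : ℂ)) • v p) ≤
        Real.exp (-(κ * ε)) * W (x p) (x p + m (p.1, (p.2 : ℂ)) • v p)) ∧
        (∀ p, ‖v p‖ ≤ δ0 → ‖m' (p.1, (p.2 : ℂ))‖ ≤ 1) ∧ JoinedIn (MM D x v) m m' := by
    rintro m ⟨hm1, hm2⟩ hmW hmv
    have hmR : ∀ p : T × Circle, ‖m (p.1, (p.2 : ℂ))‖ ≤ R := by
      intro p
      by_cases hvp : ‖v p‖ ≤ δ0
      · exact (hmv p hvp).trans (le_max_left _ _)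
      · refine le_trans ?_ (le_max_right _ _)
        rw [le_div_iff₀ hδ0]
        have h1 := hRD (hm2 p)
        have h2 := hRD (hxD p)
        rw [mem_closedBall_zero_iff] at h1 h2
        have h3 : ‖m (p.1, (p.2 : ℂ)) • v p‖ ≤ 2 * RD := by
          have h4 : m (p.1, (p.2 : ℂ)) • v p = (x p + m (p.1, (p.2 : ℂ)) • v p) - x p := by abel
          rw [h4]
          exact (norm_sub_le _ _).trans (by linarith)
        rw [norm_smul] at h3
        exact (mul_le_mul_of_nonneg_left (not_le.1 hvp).le (norm_nonneg _)).trans h3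
    obtain ⟨A, hA1, hA2, hA3⟩ := hA _ (hP1 m hm1)
    have happ : ∀ p : T × Circle, ‖((p.2 : ℂ) ^ n)⁻¹ * P (p.1, (p.2 : ℂ)) (m (p.1, (p.2 : ℂ))) -
        E (x p) (x p + m (p.1, (p.2 : ℂ)) • v p)‖ < Real.pi / 8 := fun p =>
      hP2 p _ (hmR p) (hm2 p) (hmW p)
    have hEb : ∀ p : T × Circle, ‖E (x p) (x p + m (p.1, (p.2 : ℂ)) • v p)‖ ≤ ME := fun p =>
      hME (x p, x p + m (p.1, (p.2 : ℂ)) • v p) ⟨⟨p, rfl⟩, hm2 p, hmW p⟩
    have hAb : ∀ p : T × Circle, ‖A (p.1, (p.2 : ℂ))‖ ≤ C := by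
      intro p
      apply hA3 p.1 (ME + Real.pi / 8) _ _ (Circle.norm_coe p.2)
      intro z hz
      set zc : Circle := ⟨z, by rw [Submonoid.unitSphere]; exact mem_sphere_zero_iff_norm.2 hz⟩
        with hzc
      have h1 := happ (p.1, zc)
      have h2 := hEb (p.1, zc)
      have h3 : ((zc : Circle) : ℂ) = z := rfl
      simp only [h3] at h1 h2
      have h4 : ‖((z ^ n)⁻¹ * P (p.1, z) (m (p.1, z)))‖ = ‖P (p.1, z) (m (p.1, z))‖ := by
        rw [norm_mul, norm_inv, norm_pow, hz, one_pow, inv_one, one_mul]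
      rw [← h4]
      have h5 : (z ^ n)⁻¹ * P (p.1, z) (m (p.1, z)) =
        ((z ^ n)⁻¹ * P (p.1, z) (m (p.1, z)) - E (x (p.1, zc)) (x (p.1, zc) + m (p.1, z) •
          v (p.1, zc))) + E (x (p.1, zc)) (x (p.1, zc) + m (p.1, z) • v (p.1, zc)) := by ring
      rw [h5]
      refine (norm_add_le _ _).trans ?_
      linarith
    have hAim : ∀ p : T × Circle, |(A (p.1, (p.2 : ℂ))).im -
        (E (x p) (x p + m (p.1, (p.2 : ℂ)) • v p)).im| < Real.pi / 8 := by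
      intro p
      rw [hA2 p.1 _ (Circle.norm_coe p.2), ← Complex.sub_im]
      exact lt_of_le_of_lt (Complex.abs_im_le_norm _) (happ p)
    have hst : ∀ p : T × Circle, ∀ t ∈ Icc (0 : ℝ) ε,
        x p + (m (p.1, (p.2 : ℂ)) * (1 - (t : ℂ) * exp (A (p.1, (p.2 : ℂ))))) • v p ∈ D ∧
        W (x p) (x p + (m (p.1, (p.2 : ℂ)) * (1 - (t : ℂ) * exp (A (p.1, (p.2 : ℂ))))) • v p) ≤
        Real.exp (-(κ * t)) * W (x p) (x p + m (p.1, (p.2 : ℂ)) • v p) := by
      intro p t ht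
      have h1 := hstep (x p) ⟨p, rfl⟩ _ (hm2 p) (hmW p) (A (p.1, (p.2 : ℂ))) (hAb p)
        (by have := hAim p; linarith [Real.pi_pos]) t ⟨ht.1, ht.2.trans (min_le_left _ _)⟩
      rw [add_sub_cancel_left, smul_smul, mul_comm (1 - (t : ℂ) * exp (A (p.1, (p.2 : ℂ))))] at h1
      exact h1
    have hmulb : ∀ p : T × Circle, ‖v p‖ ≤ δ0 →
        ‖m (p.1, (p.2 : ℂ)) * (1 - (ε : ℂ) * exp (A (p.1, (p.2 : ℂ))))‖ ≤ 1 := by
      intro p hp
      have h1 := hmv p hp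
      have h2 : ‖m (p.1, (p.2 : ℂ)) • v p‖ ≤ δ0 := by
        rw [norm_smul]
        calc ‖m (p.1, (p.2 : ℂ))‖ * ‖v p‖ ≤ 1 * δ0 :=
              mul_le_mul h1 hp (norm_nonneg _) zero_le_one
          _ = δ0 := one_mul _
      have h3 := (hdiag (x p) ⟨p, rfl⟩ _ h2).2
      have h4 := Complex.abs_im_le_norm (E (x p) (x p + m (p.1, (p.2 : ℂ)) • v p))
      have h5 := hAim p
      have h6 : |(A (p.1, (p.2 : ℂ))).im| ≤ Real.pi / 4 := by
        have h7 : |(A (p.1, (p.2 : ℂ))).im| ≤ |(A (p.1, (p.2 : ℂ))).im -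
            (E (x p) (x p + m (p.1, (p.2 : ℂ)) • v p)).im| +
            |(E (x p) (x p + m (p.1, (p.2 : ℂ)) • v p)).im| := by
          have := abs_add_le ((A (p.1, (p.2 : ℂ))).im -
            (E (x p) (x p + m (p.1, (p.2 : ℂ)) • v p)).im)
            ((E (x p) (x p + m (p.1, (p.2 : ℂ)) • v p)).im)
          rwa [sub_add_cancel] at this
        linarith
      have h8 := norm_one_sub_le (hAb p) h6 hεp.le (min_le_right _ _)
      rw [norm_mul]
      calc _ ≤ (1 : ℝ) * 1 := mul_le_mul h1 h8 (norm_nonneg _) zero_le_one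
        _ = 1 := one_mul _
    have hEntf : ∀ t : ℝ, Ent (fun p : T × ℂ => m p * (1 - (t : ℂ) * exp (A p))) := by
      intro t
      exact hm1.mul ((ent_const 1).sub ((ent_const (t : ℂ)).mul hA1.exp))
    refine ⟨⟨fun p => m p * (1 - (ε : ℂ) * exp (A p)), (hEntf ε).1⟩, ⟨hEntf ε, ?_⟩, ?_, ?_, ?_⟩
    · intro p
      exact (hst p ε ⟨hεp.le, le_rfl⟩).1
    · intro p
      exact (hst p ε ⟨hεp.le, le_rfl⟩).2
    · intro p hp
      exact hmulb p hp
    · apply joined_line (f := fun (s : ℝ) (p : T × ℂ) => m p * (1 - ((s * ε : ℝ) : ℂ) * exp (A p)))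
      · have hmc := m.continuous
        have hAc := hA1.1
        fun_prop
      · intro s _
        exact hEntf _
      · intro s hs p
        apply (hst p (s * ε) ⟨by have := hs.1; positivity, ?_⟩).1
        calc s * ε ≤ 1 * ε := mul_le_mul_of_nonneg_right hs.2 hεp.le
          _ = ε := one_mul _
      · intro p; simp
      · intro p; simp
  -- iterate
  have hiter : ∀ k : ℕ, ∃ m ∈ MM D x v, (∀ p, W (x p) (x p + m (p.1, (p.2 : ℂ)) • v p) ≤
      Real.exp (-(κ * ε)) ^ k * ρ) ∧ (∀ p, ‖v p‖ ≤ δ0 → ‖m (p.1, (p.2 : ℂ))‖ ≤ 1) ∧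
      JoinedIn (MM D x v) (ContinuousMap.const _ 1) m := by
    intro k
    induction k with
    | zero =>
      have hmem : (ContinuousMap.const _ 1 : C(T × ℂ, ℂ)) ∈ MM D x v := by
        refine ⟨ent_const 1, fun p => ?_⟩
        simpa using hyD p
      refine ⟨_, hmem, ?_, ?_, JoinedIn.refl hmem⟩
      · intro p
        simpa using hρ p
      · intro p _
        simp
    | succ k ih =>
      obtain ⟨m, hm, h1, h2, h3⟩ := ih
      have hle1 : Real.exp (-(κ * ε)) ≤ 1 := by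
        apply Real.exp_le_one_iff.2
        have : 0 < κ * ε := by positivity
        linarith
      obtain ⟨m', hm', g1, g2, g3⟩ := hone m hm (fun p => (h1 p).trans (by
        calc Real.exp (-(κ * ε)) ^ k * ρ ≤ 1 * ρ :=
              mul_le_mul_of_nonneg_right (pow_le_one₀ (Real.exp_pos _).le hle1) hρ0
          _ = ρ := one_mul _)) h2
      refine ⟨m', hm', ?_, g2, h3.trans g3⟩
      intro p
      calc _ ≤ _ := g1 p
        _ ≤ Real.exp (-(κ * ε)) * (Real.exp (-(κ * ε)) ^ k * ρ) :=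
            mul_le_mul_of_nonneg_left (h1 p) (Real.exp_pos _).le
        _ = Real.exp (-(κ * ε)) ^ (k + 1) * ρ := by ring
  obtain ⟨δ1, hδ1, hsm⟩ := small_W K hXD hXc hρ1 hδ0
  have hlt1 : Real.exp (-(κ * ε)) < 1 := by
    rw [Real.exp_lt_one_iff]
    have : 0 < κ * ε := by positivity
    linarith
  obtain ⟨k, hk⟩ : ∃ k : ℕ, Real.exp (-(κ * ε)) ^ k * ρ < δ1 := by
    have h1 : Tendsto (fun k : ℕ => Real.exp (-(κ * ε)) ^ k * ρ) atTop (𝓝 (0 * ρ)) :=
      (tendsto_pow_atTop_nhds_zero_of_lt_one (Real.exp_pos _).le hlt1).mul_const ρ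
    rw [zero_mul] at h1
    exact (h1.eventually_lt_const hδ1).exists
  obtain ⟨m, hm, h1, h2, h3⟩ := hiter k
  have hmρ : ∀ p, W (x p) (x p + m (p.1, (p.2 : ℂ)) • v p) ≤ ρ := fun p => (h1 p).trans (by
        calc Real.exp (-(κ * ε)) ^ k * ρ ≤ 1 * ρ :=
              mul_le_mul_of_nonneg_right (pow_le_one₀ (Real.exp_pos _).le hlt1.le) hρ0
          _ = ρ := one_mul _)
  apply h3.trans
  apply joined_line (f := fun (s : ℝ) (p : T × ℂ) => ((1 - s : ℝ) : ℂ) * m p)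
  · have hmc := m.continuous
    fun_prop
  · intro s _
    exact (ent_const _).mul hm.1
  · intro s hs p
    have h4 := hsm (x p) ⟨p, rfl⟩ _ (hm.2 p) (hmρ p) (lt_of_le_of_lt (h1 p) hk)
    rw [add_sub_cancel_left] at h4
    apply (hdiag (x p) ⟨p, rfl⟩ _ _).1
    rw [mul_smul, norm_smul, Complex.norm_real, Real.norm_of_nonneg (by linarith [hs.2])]
    calc (1 - s) * ‖m (p.1, (p.2 : ℂ)) • v p‖ ≤ 1 * ‖m (p.1, (p.2 : ℂ)) • v p‖ :=
          mul_le_mul_of_nonneg_right (by linarith [hs.1]) (norm_nonneg _)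
      _ ≤ δ0 := by rw [one_mul]; exact h4
  · intro p; simp
  · intro p; simp

/-- the contraction lemma -/
theorem lemS (hD : Dom D) (K : Kit D W E) [CompactSpace T] [T2Space T]
    {x v : T × Circle → V} (hx : Continuous x) (hv : Continuous v) (hxD : ∀ p, x p ∈ D)
    (hyD : ∀ p, x p + v p ∈ D) :
    ∃ m : ℝ → T × ℂ → ℂ, Continuous (fun q : ℝ × (T × ℂ) => m q.1 q.2) ∧ (∀ s, Ent (m s)) ∧
      (∀ p, m 0 p = 1) ∧ (∀ p, m 1 p = 0) ∧
      ∀ s, ∀ p : T × Circle, x p + m s (p.1, (p.2 : ℂ)) • v p ∈ D := by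
  have h1 := lemS_joined hD K hx hv hxD hyD
  obtain ⟨γ, hγ⟩ := h1
  have hmem : ∀ s : ℝ, γ.extend s ∈ MM D x v := fun s => hγ _
  refine ⟨fun s => γ.extend s, ?_, fun s => (hmem s).1, ?_, ?_, fun s => (hmem s).2⟩
  · have h2 : Continuous (fun s : ℝ => γ.extend s) := γ.continuous_extend
    have h3 : Continuous (fun q : ℝ × (T × ℂ) => (γ.extend q.1) q.2) :=
      (h2.comp continuous_fst).eval continuous_snd
    exact h3
  · intro p
    beta_reduce
    rw [γ.extend_zero]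
    rfl
  · intro p
    beta_reduce
    rw [γ.extend_one]
    rfl

end

end Pool.Agent.H801R2.CX
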