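import Mathlib
import Pool.Agent.H801R2.CX.Flow

set_option autoImplicit false

open Complex Set Filter Metric Topology

namespace Pool.Agent.H801R2.CX

variable {V : Type*} [NormedAddCommGroup V] [NormedSpace ℂ V]

/-- continuity principle for families of closed discs -/
theorem disc_prop {D : Set V} (hD : IsOpen D) (hbd : Bornology.IsBounded D) (hlc : LinC D)
    {Φ : ℝ → ℂ → V}
    (hc : ContinuousOn (fun q : ℝ × ℂ => Φ q.1 q.2) (univ ×ˢ closedBall 0 1))
    (hd : ∀ s, DifferentiableOn ℂ (Φ s) (ball 0 1))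
    (h0 : ∀ z ∈ closedBall (0 : ℂ) 1, Φ 0 z ∈ D)
    (hb : ∀ s ∈ Icc (0 : ℝ) 1, ∀ z : ℂ, ‖z‖ = 1 → Φ s z ∈ D) :
    ∀ s ∈ Icc (0 : ℝ) 1, ∀ z ∈ closedBall (0 : ℂ) 1, Φ s z ∈ D := by
  set S : Set ℝ := {s | ∀ z ∈ closedBall (0 : ℂ) 1, Φ s z ∈ D} with hS
  obtain ⟨R, hR⟩ := hbd.subset_closedBall (0 : V)
  have hcs : ∀ s, ContinuousOn (Φ s) (closedBall 0 1) := fun s =>
    hc.comp (f := fun z : ℂ => (s, z)) (by fun_prop) (fun z hz => ⟨trivial, hz⟩)
  have hct : ∀ z ∈ closedBall (0 : ℂ) 1, Continuous (fun s => Φ s z) := by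
    intro z hz
    exact hc.comp_continuous (f := fun s : ℝ => (s, z)) (by fun_prop) (fun s => ⟨trivial, hz⟩)
  have hsub : Icc (0 : ℝ) 1 ⊆ S := by
    apply IsClosed.Icc_subset_of_forall_mem_nhdsWithin
    · apply IsSeqClosed.isClosed
      intro u s hu hus
      have hsI : s ∈ Icc (0 : ℝ) 1 := isClosed_Icc.isSeqClosed (fun n => (hu n).2) hus
      refine ⟨?_, hsI⟩
      intro z hz
      by_contra hq
      have hz1 : ‖z‖ < 1 := by
        rw [mem_closedBall_zero_iff] at hz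
        rcases hz.lt_or_eq with h | h
        · exact h
        · exact absurd (hb s hsI z h) hq
      have hzb : z ∈ ball (0 : ℂ) 1 := mem_ball_zero_iff.2 hz1
      obtain ⟨f, hf⟩ := hlc _ hq
      have htlu : TendstoLocallyUniformlyOn (fun n => Φ (u n)) (Φ s) atTop (ball 0 1) := by
        apply tlu_pt isOpen_ball (fun n => hd (u n)) (M := R)
        · intro n w hw
          exact mem_closedBall_zero_iff.1 (hR ((hu n).1 w (ball_subset_closedBall hw)))
        · intro w hw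
          exact ((hct w (ball_subset_closedBall hw)).tendsto s).comp hus
      have h2 : UniformContinuous (fun y : V => f y - f (Φ s z)) :=
        f.uniformContinuous.sub uniformContinuous_const
      have h1 := h2.comp_tendstoLocallyUniformlyOn htlu
      have h3 := Pool.Agent.Helper859.Stk.Riemann.hurwitz isOpen_ball
        (F := fun n w => f (Φ (u n) w) - f (Φ s z)) (f := fun w => f (Φ s w) - f (Φ s z))
        (fun n => (f.differentiable.comp_differentiableOn (hd (u n))).sub_const _) h1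
        (fun n w hw => sub_ne_zero.2 (hf _ ((hu n).1 w (ball_subset_closedBall hw)))) hzb
        (by simp)
      have hfd' : DifferentiableOn ℂ (fun w => f (Φ s w) - f (Φ s z)) (ball 0 1) :=
        (f.differentiable.comp_differentiableOn (hd s)).sub_const _
      have h5 := (hfd'.analyticOnNhd isOpen_ball).eqOn_zero_of_preconnected_of_eventuallyEq_zero
        (convex_ball (0 : ℂ) 1).isPreconnected hzb h3
      have h6 : EqOn (fun w => f (Φ s w) - f (Φ s z)) 0 (closedBall 0 1) := by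
        apply h5.of_subset_closure _ continuousOn_const ball_subset_closedBall
        · rw [closure_ball (0 : ℂ) one_ne_zero]
        · exact (f.continuous.comp_continuousOn (hcs s)).sub continuousOn_const
      have h7 := h6 (show (1 : ℂ) ∈ closedBall (0 : ℂ) 1 by simp)
      simp only [Pi.zero_apply] at h7
      exact hf _ (hb s hsI 1 (by simp)) (sub_eq_zero.1 h7)
    · exact h0
    · rintro s ⟨hs, -⟩
      apply mem_nhdsWithin_of_mem_nhds
      have h1 : ∀ᶠ t in 𝓝 s, ∀ z ∈ closedBall (0 : ℂ) 1, z ∈ closedBall (0 : ℂ) 1 → Φ t z ∈ D := by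
        apply (isCompact_closedBall (0 : ℂ) 1).eventually_forall_of_forall_eventually
        intro z hz
        have h2 := hc (s, z) ⟨trivial, hz⟩
        have h3 : ∀ᶠ q in 𝓝[univ ×ˢ closedBall (0 : ℂ) 1] (s, z), Φ q.1 q.2 ∈ D :=
          h2.eventually (hD.mem_nhds (hs z hz))
        rw [eventually_nhdsWithin_iff] at h3
        filter_upwards [h3] with q hq hqz
        exact hq ⟨trivial, hqz⟩
      filter_upwards [h1] with t ht z hz
      exact ht z hz hz
  intro s hs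
  exact hsub hs

theorem discS {D : Set V} {W : V → V → ℝ} {E : V → V → ℂ} (hD : Dom D) (hlc : LinC D)
    (K : Kit D W E) {T : Type*} [TopologicalSpace T] [CompactSpace T] [T2Space T]
    {a b : T → ℂ → V}
    (ha : ContinuousOn (fun q : T × ℂ => a q.1 q.2) (univ ×ˢ closedBall 0 1))
    (hb : ContinuousOn (fun q : T × ℂ => b q.1 q.2) (univ ×ˢ closedBall 0 1))
    (had : ∀ θ, DifferentiableOn ℂ (a θ) (ball 0 1))
    (hbd : ∀ θ, DifferentiableOn ℂ (b θ) (ball 0 1))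
    (haD : ∀ θ, ∀ z ∈ closedBall (0 : ℂ) 1, a θ z ∈ D)
    (hbD : ∀ θ, ∀ z ∈ closedBall (0 : ℂ) 1, b θ z ∈ D) :
    ∃ m : ℝ → T × ℂ → ℂ, Continuous (fun q : ℝ × (T × ℂ) => m q.1 q.2) ∧ (∀ s, Ent (m s)) ∧
      (∀ p, m 0 p = 1) ∧ (∀ p, m 1 p = 0) ∧
      ∀ s ∈ Icc (0 : ℝ) 1, ∀ θ, ∀ z ∈ closedBall (0 : ℂ) 1,
        a θ z + m s (θ, z) • (b θ z - a θ z) ∈ D := by
  have hcirc : ∀ p : T × Circle, (p.1, (p.2 : ℂ)) ∈ (univ : Set T) ×ˢ closedBall (0 : ℂ) 1 := by
    intro p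
    refine ⟨trivial, ?_⟩
    rw [mem_closedBall_zero_iff, Circle.norm_coe]
  have hac : Continuous (fun p : T × Circle => a p.1 (p.2 : ℂ)) :=
    ha.comp_continuous (f := fun p : T × Circle => (p.1, (p.2 : ℂ))) (by fun_prop) hcirc
  have hbc : Continuous (fun p : T × Circle => b p.1 (p.2 : ℂ)) :=
    hb.comp_continuous (f := fun p : T × Circle => (p.1, (p.2 : ℂ))) (by fun_prop) hcirc
  obtain ⟨m, h1, h2, h3, h4, h5⟩ := lemS hD K (x := fun p : T × Circle => a p.1 (p.2 : ℂ))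
    (v := fun p : T × Circle => b p.1 (p.2 : ℂ) - a p.1 (p.2 : ℂ)) hac (hbc.sub hac)
    (fun p => haD _ _ (hcirc p).2) (fun p => by
      rw [add_sub_cancel]; exact hbD _ _ (hcirc p).2)
  refine ⟨m, h1, h2, h3, h4, ?_⟩
  intro s hs θ z hz
  have haθ : ContinuousOn (a θ) (closedBall 0 1) :=
    ha.comp (f := fun z : ℂ => (θ, z)) (by fun_prop) (fun z hz => ⟨trivial, hz⟩)
  have hbθ : ContinuousOn (b θ) (closedBall 0 1) :=
    hb.comp (f := fun z : ℂ => (θ, z)) (by fun_prop) (fun z hz => ⟨trivial, hz⟩)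
  apply disc_prop hD.op hD.bd hlc (Φ := fun s z => a θ z + m s (θ, z) • (b θ z - a θ z)) _ _ _ _
    s hs z hz
  · have e1 : ContinuousOn (fun q : ℝ × ℂ => a θ q.2) (univ ×ˢ closedBall 0 1) :=
      haθ.comp continuousOn_snd (fun q hq => hq.2)
    have e2 : ContinuousOn (fun q : ℝ × ℂ => b θ q.2) (univ ×ˢ closedBall 0 1) :=
      hbθ.comp continuousOn_snd (fun q hq => hq.2)
    have e3 : Continuous (fun q : ℝ × ℂ => m q.1 (θ, q.2)) :=
      h1.comp (by fun_prop : Continuous fun q : ℝ × ℂ => (q.1, (θ, q.2)))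
    exact e1.add (e3.continuousOn.smul (e2.sub e1))
  · intro s
    exact (had θ).add (((h2 s).2 θ).differentiableOn.smul ((hbd θ).sub (had θ)))
  · intro z hz
    rw [h3, one_smul, add_sub_cancel]
    exact hbD θ z hz
  · intro s _ z hz
    exact h5 s (θ, ⟨z, by rw [Submonoid.unitSphere]; exact mem_sphere_zero_iff_norm.2 hz⟩)

/-- holomorphic discs in `D` centred at `o` -/
def Disc (D : Set V) (o : V) : Set (ℂ → V) :=
  {φ | DifferentiableOn ℂ φ (ball 0 1) ∧ MapsTo φ (ball 0 1) D ∧ φ 0 = o}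

/-- the closed Lempert ball -/
def KK (D : Set V) (o : V) (c : ℝ) : Set V := {y | ∃ φ ∈ Disc D o, φ (c : ℂ) = y}

theorem disc_shrink {D : Set V} {o : V} {φ : ℂ → V} (hφ : φ ∈ Disc D o) {r : ℝ} (hr0 : 0 ≤ r)
    (hr : r ≤ 1) : (fun z : ℂ => φ ((r : ℂ) * z)) ∈ Disc D o := by
  have hmap : MapsTo (fun z : ℂ => (r : ℂ) * z) (ball 0 1) (ball 0 1) := by
    intro z hz
    rw [mem_ball_zero_iff] at hz ⊢
    rw [norm_mul, Complex.norm_real, Real.norm_of_nonneg hr0]
    nlinarith [norm_nonneg z]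
  refine ⟨hφ.1.comp (by fun_prop) hmap, fun z hz => hφ.2.1 (hmap hz), ?_⟩
  simp only [mul_zero]
  exact hφ.2.2

theorem disc_const {D : Set V} {o : V} (ho : o ∈ D) : (fun _ => o) ∈ Disc D o :=
  ⟨differentiableOn_const _, fun _ _ => ho, rfl⟩

theorem KK_sub {D : Set V} {o : V} {c : ℝ} (hc0 : 0 ≤ c) (hc : c < 1) : KK D o c ⊆ D := by
  rintro _ ⟨φ, hφ, rfl⟩
  apply hφ.2.1
  rw [mem_ball_zero_iff, Complex.norm_real, Real.norm_of_nonneg hc0]
  exact hc

theorem KK_mono {D : Set V} {o : V} {c c' : ℝ} (hc0 : 0 ≤ c) (hc : c ≤ c') (hc' : 0 < c') :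
    KK D o c ⊆ KK D o c' := by
  rintro _ ⟨φ, hφ, rfl⟩
  refine ⟨_, disc_shrink hφ (r := c / c') (by positivity) (by rw [div_le_one hc']; exact hc), ?_⟩
  have : ((c / c' : ℝ) : ℂ) * (c' : ℂ) = (c : ℂ) := by
    rw [← Complex.ofReal_mul, div_mul_cancel₀ _ hc'.ne']
  rw [this]

theorem KK_lim [FiniteDimensional ℂ V] {D : Set V} (hbd : Bornology.IsBounded D) (hlc : LinC D)
    {o : V} (ho : o ∈ D) {ι : Type*} (l : Ultrafilter ι) {c : ι → ℝ} {y : ι → V} {c0 : ℝ} {y0 : V}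
    (hy : ∀ᶠ i in (l : Filter ι), y i ∈ KK D o (c i)) (hc00 : 0 ≤ c0) (hc01 : c0 < 1)
    (hc : Tendsto c l (𝓝 c0)) (hyt : Tendsto y l (𝓝 y0)) : y0 ∈ KK D o c0 := by
  obtain ⟨r, hr1, hr2⟩ := rmap_index hy
  choose φ hφ hφc using hr1
  obtain ⟨φ', p1, p2, p3, p4⟩ := montel hbd hlc l φ (fun i => (hφ i).1) (fun i => (hφ i).2.1) ho
    (by simp only [(hφ _).2.2]; exact tendsto_const_nhds)
  refine ⟨φ', ⟨p1, p2, p3⟩, ?_⟩
  have hc0b : (c0 : ℂ) ∈ ball (0 : ℂ) 1 := by
    rw [mem_ball_zero_iff, Complex.norm_real, Real.norm_of_nonneg hc00]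
    exact hc01
  have hcr : Tendsto (fun i => ((c (r i) : ℝ) : ℂ)) l (𝓝 (c0 : ℂ)) := by
    have h1 : Tendsto (fun i => ((c i : ℝ) : ℂ)) l (𝓝 (c0 : ℂ)) :=
      (Complex.continuous_ofReal.tendsto _).comp hc
    apply h1.congr'
    filter_upwards [hr2] with i hi
    rw [hi]
  have h2 : Tendsto (fun i => φ i (c (r i))) l (𝓝 (φ' c0)) := by
    apply p4.tendsto_comp (p1.continuousOn _ hc0b) hc0b
    rw [tendsto_nhdsWithin_iff]
    exact ⟨hcr, hcr.eventually (isOpen_ball.mem_nhds hc0b)⟩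
  have h3 : Tendsto (fun i => φ i (c (r i))) l (𝓝 y0) := by
    apply hyt.congr'
    filter_upwards [hr2] with i hi
    rw [hφc, hi]
  exact tendsto_nhds_unique h2 h3

theorem KK_compact [FiniteDimensional ℂ V] {D : Set V} (hbd : Bornology.IsBounded D)
    (hlc : LinC D) {o : V} (ho : o ∈ D) {c : ℝ} (hc0 : 0 ≤ c) (hc : c < 1) :
    IsCompact (KK D o c) := by
  have : ProperSpace V := FiniteDimensional.proper ℂ V
  rw [isCompact_iff_ultrafilter_le_nhds]
  intro l hl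
  rw [le_principal_iff] at hl
  obtain ⟨R, hR⟩ := hbd.subset_closedBall (0 : V)
  obtain ⟨y0, -, hly⟩ := (isCompact_closedBall (0 : V) R).ultrafilter_le_nhds l (by
    rw [le_principal_iff]
    exact mem_of_superset hl ((KK_sub hc0 hc).trans hR))
  exact ⟨y0, KK_lim hbd hlc ho l (c := fun _ => c) (y := id) hl hc0 hc tendsto_const_nhds hly, hly⟩

/-- right continuity -/
theorem KK_right [FiniteDimensional ℂ V] {D : Set V} (hbd : Bornology.IsBounded D)
    (hlc : LinC D) {o : V} (ho : o ∈ D) {c : ℝ} (hc0 : 0 ≤ c) (hc : c < 1) {y : V}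
    (hy : y ∉ KK D o c) : ∃ c' : ℝ, c < c' ∧ c' < 1 ∧ y ∉ KK D o c' := by
  by_contra hcon
  push Not at hcon
  apply hy
  set u : ℕ → ℝ := fun n => c + (1 - c) / (n + 2) with hu
  have hu1 : ∀ n, c < u n ∧ u n < 1 := by
    intro n
    have h1 : (0 : ℝ) < (n : ℝ) + 2 := by positivity
    have h2 : 0 < (1 - c) / ((n : ℝ) + 2) := div_pos (by linarith) h1
    refine ⟨by rw [hu]; linarith, ?_⟩
    have h3 : (1 - c) / ((n : ℝ) + 2) < 1 - c := by
      rw [div_lt_iff₀ h1]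
      nlinarith [(Nat.cast_nonneg n : (0 : ℝ) ≤ n)]
    rw [hu]
    linarith
  have hut : Tendsto u atTop (𝓝 c) := by
    have h1 : Tendsto (fun n : ℕ => (1 - c) / ((n : ℝ) + 2)) atTop (𝓝 0) := by
      apply Tendsto.div_atTop tendsto_const_nhds
      exact tendsto_atTop_add_const_right _ _ tendsto_natCast_atTop_atTop
    have h2 := h1.const_add c
    rwa [add_zero] at h2
  obtain ⟨l, hl⟩ := Ultrafilter.exists_le (atTop : Filter ℕ)
  exact KK_lim hbd hlc ho l (c := u) (y := fun _ => y)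
    (Eventually.of_forall fun n => hcon (u n) (hu1 n).1 (hu1 n).2) hc0 hc (hut.mono_left hl)
    tendsto_const_nhds

/-- the Lempert balls exhaust `D` -/
theorem KK_exhaust {D : Set V} {W : V → V → ℝ} {E : V → V → ℂ} (K : Kit D W E) {o : V}
    (ho : o ∈ D) {y : V} (hy : y ∈ D) : ∃ c : ℝ, 0 < c ∧ c < 1 ∧ y ∈ KK D o c := by
  by_cases hyo : y = o
  · subst hyo
    exact ⟨1 / 2, by norm_num, by norm_num, _, disc_const ho, rfl⟩
  · obtain ⟨h, g, H, -, -⟩ := K.rm o ho (y - o) (sub_ne_zero.2 hyo)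
    have h1 : (1 : ℂ) ∈ sl D o (y - o) := by
      change o + (1 : ℂ) • (y - o) ∈ D
      rw [one_smul, add_sub_cancel]; exact hy
    have hg0 : g 1 ≠ 0 := H.g_ne h1 one_ne_zero
    have hg1 : ‖g 1‖ < 1 := mem_ball_zero_iff.1 (H.gm h1)
    have hgn : 0 < ‖g 1‖ := norm_pos_iff.2 hg0
    set e : ℂ := g 1 / (‖g 1‖ : ℂ) with he
    have hen : ‖e‖ = 1 := by
      rw [he, norm_div, Complex.norm_real, norm_norm, div_self hgn.ne']
    have hmap : MapsTo (fun z : ℂ => e * z) (ball 0 1) (ball 0 1) := by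
      intro z hz
      rw [mem_ball_zero_iff] at hz ⊢
      rw [norm_mul, hen, one_mul]; exact hz
    refine ⟨‖g 1‖, hgn, hg1, fun z => o + h (e * z) • (y - o), ⟨?_, ?_, ?_⟩, ?_⟩
    · exact ((H.hd.comp (by fun_prop) hmap).smul_const _).const_add _
    · intro z hz
      exact H.hm (hmap hz)
    · simp only [mul_zero, H.h0, zero_smul, add_zero]
    · have h2 : e * ((‖g 1‖ : ℝ) : ℂ) = g 1 := by
        rw [he]
        have : ((‖g 1‖ : ℝ) : ℂ) ≠ 0 := by exact_mod_cast hgn.ne'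
        field_simp
      simp only [h2, H.hg _ h1, one_smul, add_sub_cancel]

end Pool.Agent.H801R2.CX
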