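import Mathlib
import Pool.Agent.H801R2.CX.Disc

set_option autoImplicit false

open Complex Set Filter Metric Topology

namespace Pool.Agent.H801R2.CX

variable {V : Type*} [NormedAddCommGroup V] [NormedSpace ℂ V]

theorem shrink_closed {D : Set V} {o : V} {φ : ℂ → V} (hφ : φ ∈ Disc D o) {r : ℝ} (hr0 : 0 ≤ r)
    (hr : r < 1) : MapsTo (fun z : ℂ => (r : ℂ) * z) (closedBall 0 1) (ball 0 1) ∧
    ContinuousOn (fun z : ℂ => φ ((r : ℂ) * z)) (closedBall 0 1) ∧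
    ∀ z ∈ closedBall (0 : ℂ) 1, φ ((r : ℂ) * z) ∈ D := by
  have hmap : MapsTo (fun z : ℂ => (r : ℂ) * z) (closedBall 0 1) (ball 0 1) := by
    intro z hz
    rw [mem_closedBall_zero_iff] at hz
    rw [mem_ball_zero_iff, norm_mul, Complex.norm_real, Real.norm_of_nonneg hr0]
    nlinarith [norm_nonneg z]
  exact ⟨hmap, hφ.1.continuousOn.comp (by fun_prop) hmap, fun z hz => hφ.2.1 (hmap hz)⟩

/-- two discs can be joined after shrinking -/
theorem join {D : Set V} {W : V → V → ℝ} {E : V → V → ℂ} (hD : Dom D) (hlc : LinC D)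
    (K : Kit D W E) {o : V} {φ ψ : ℂ → V} (hφ : φ ∈ Disc D o) (hψ : ψ ∈ Disc D o) {c c' : ℝ}
    (hc0 : 0 ≤ c) (hcc' : c < c') (hc'1 : c' < 1) :
    ∃ χ : ℝ → ℂ → V, (∀ s ∈ Icc (0 : ℝ) 1, χ s ∈ Disc D o) ∧
      (∀ z : ℂ, Continuous (fun s => χ s z)) ∧
      (∀ z, χ 0 z = ψ (((c / c' : ℝ) : ℂ) * z)) ∧ (∀ z, χ 1 z = φ (((c / c' : ℝ) : ℂ) * z)) ∧
      ∃ μ : ℝ → ℂ, Continuous μ ∧ μ 0 = 1 ∧ μ 1 = 0 ∧
        ∀ s, χ s c' = φ c + μ s • (ψ c - φ c) := by
  have hc' : 0 < c' := lt_of_le_of_lt hc0 hcc'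
  have hr0 : 0 ≤ c / c' := by positivity
  have hr1 : c / c' < 1 := (div_lt_one hc').2 hcc'
  obtain ⟨-, p1, p2⟩ := shrink_closed hφ hr0 hr1
  obtain ⟨-, q1, q2⟩ := shrink_closed hψ hr0 hr1
  have hφd := disc_shrink hφ hr0 hr1.le
  have hψd := disc_shrink hψ hr0 hr1.le
  obtain ⟨m, h1, h2, h3, h4, h5⟩ := discS hD hlc K (T := Unit)
    (a := fun _ z => φ (((c / c' : ℝ) : ℂ) * z)) (b := fun _ z => ψ (((c / c' : ℝ) : ℂ) * z))
    (p1.comp continuousOn_snd (fun q hq => hq.2)) (q1.comp continuousOn_snd (fun q hq => hq.2))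
    (fun _ => hφd.1) (fun _ => hψd.1) (fun _ => p2) (fun _ => q2)
  refine ⟨fun s z => φ (((c / c' : ℝ) : ℂ) * z) + m s ((), z) •
    (ψ (((c / c' : ℝ) : ℂ) * z) - φ (((c / c' : ℝ) : ℂ) * z)), ?_, ?_, ?_, ?_,
    fun s => m s ((), (c' : ℂ)), ?_, h3 _, h4 _, ?_⟩
  · intro s hs
    refine ⟨?_, ?_, ?_⟩
    · exact hφd.1.add (((h2 s).2 ()).differentiableOn.smul (hψd.1.sub hφd.1))
    · intro z hz
      exact h5 s hs () z (ball_subset_closedBall hz)
    · have e1 : φ (((c / c' : ℝ) : ℂ) * 0) = o := hφd.2.2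
      have e2 : ψ (((c / c' : ℝ) : ℂ) * 0) = o := hψd.2.2
      beta_reduce
      rw [e1, e2, sub_self, smul_zero, add_zero]
  · intro z
    have e3 : Continuous (fun s : ℝ => m s ((), z)) :=
      h1.comp (by fun_prop : Continuous fun s : ℝ => (s, ((), z)))
    exact continuous_const.add (e3.smul continuous_const)
  · intro z
    simp only [h3, one_smul, add_sub_cancel]
  · intro z
    simp only [h4, zero_smul, add_zero]
  · exact h1.comp (by fun_prop : Continuous fun s : ℝ => (s, ((), (c' : ℂ))))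
  · intro s
    have e : ((c / c' : ℝ) : ℂ) * (c' : ℂ) = (c : ℂ) := by
      rw [← Complex.ofReal_mul, div_mul_cancel₀ _ hc'.ne']
    simp only [e]

/-- parameters of a slice of the closed Lempert ball -/
def SS (D : Set V) (o a b : V) (c : ℝ) : Set ℂ := {t | a + t • b ∈ KK D o c}

theorem SS_bdd {D : Set V} (hD : Bornology.IsBounded D) {a b : V} (hb : b ≠ 0) :
    ∃ R : ℝ, ∀ t : ℂ, a + t • b ∈ D → t ∈ closedBall (0 : ℂ) R := by
  obtain ⟨R, hR⟩ := hD.subset_closedBall (0 : V)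
  have hbn : 0 < ‖b‖ := norm_pos_iff.2 hb
  refine ⟨(R + ‖a‖) / ‖b‖, fun t ht => ?_⟩
  rw [mem_closedBall_zero_iff, le_div_iff₀ hbn, ← norm_smul]
  have h1 := hR ht
  rw [mem_closedBall_zero_iff] at h1
  have h2 : t • b = (a + t • b) - a := by abel
  rw [h2]
  exact (norm_sub_le _ _).trans (by linarith)

theorem SS_compact [FiniteDimensional ℂ V] {D : Set V} (hbd : Bornology.IsBounded D)
    (hlc : LinC D) {o a b : V} (ho : o ∈ D) (hb : b ≠ 0) {c : ℝ} (hc0 : 0 ≤ c) (hc : c < 1) :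
    IsCompact (SS D o a b c) := by
  obtain ⟨R, hR⟩ := SS_bdd hbd (a := a) hb
  apply (isCompact_closedBall (0 : ℂ) R).of_isClosed_subset
  · exact (KK_compact hbd hlc ho hc0 hc).isClosed.preimage
      (by fun_prop : Continuous fun t : ℂ => a + t • b)
  · intro t ht
    exact hR t (KK_sub hc0 hc ht)

/-- slices with nearby parameter stay in a neighbourhood -/
theorem SS_near [FiniteDimensional ℂ V] {D : Set V} (hbd : Bornology.IsBounded D)
    (hlc : LinC D) {o a b : V} (ho : o ∈ D) (hb : b ≠ 0) {c : ℝ} (hc0 : 0 ≤ c) (hc : c < 1)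
    {U : Set ℂ} (hU : IsOpen U) (hsub : SS D o a b c ⊆ U) :
    ∃ c' : ℝ, c < c' ∧ c' < 1 ∧ SS D o a b c' ⊆ U := by
  by_contra hcon
  push Not at hcon
  set u : ℕ → ℝ := fun n => c + (1 - c) / (n + 2) with hu
  have hu1 : ∀ n, c < u n ∧ u n < 1 := by
    intro n
    have h1 : (0 : ℝ) < (n : ℝ) + 2 := by positivity
    have h2 : 0 < (1 - c) / ((n : ℝ) + 2) := div_pos (by linarith) h1
    refine ⟨by rw [hu]; linarith, ?_⟩
    have h3 : (1 - c) / ((n : ℝ) + 2) < 1 - c := by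
      rw [div_lt_iff₀ h1]
      nlinarith [(Nat.cast_nonneg n : (0 : ℝ) ≤ n)]
    rw [hu]
    linarith
  have hut : Tendsto u atTop (𝓝 c) := by
    have h1 : Tendsto (fun n : ℕ => (1 - c) / ((n : ℝ) + 2)) atTop (𝓝 0) := by
      apply Tendsto.div_atTop tendsto_const_nhds
      exact tendsto_atTop_add_const_right _ _ tendsto_natCast_atTop_atTop
    have h2 := h1.const_add c
    rwa [add_zero] at h2
  have hex : ∀ n, ∃ t ∈ SS D o a b (u n), t ∉ U := fun n =>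
    not_subset.1 (hcon (u n) (hu1 n).1 (hu1 n).2)
  choose t ht htU using hex
  obtain ⟨l, hl⟩ := Ultrafilter.exists_le (atTop : Filter ℕ)
  obtain ⟨R, hR⟩ := SS_bdd hbd (a := a) hb
  obtain ⟨t0, -, hlt⟩ := (isCompact_closedBall (0 : ℂ) R).ultrafilter_le_nhds (l.map t) (by
    rw [le_principal_iff]
    change t ⁻¹' _ ∈ (l : Filter ℕ)
    apply univ_mem'
    intro n
    exact hR _ (KK_sub (hc0.trans (hu1 n).1.le) (hu1 n).2 (ht n)))
  have hlt' : Tendsto t l (𝓝 t0) := hlt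
  have h1 : a + t0 • b ∈ KK D o c := by
    apply KK_lim hbd hlc ho l (c := u) (y := fun n => a + t n • b) (Eventually.of_forall ht)
      hc0 hc (hut.mono_left hl)
    exact (hlt'.smul_const b).const_add a
  have h2 : t0 ∉ U := by
    intro h3
    obtain ⟨n, hn⟩ := (hlt'.eventually (hU.mem_nhds h3)).exists
    exact htU n hn
  exact h2 (hsub h1)

theorem SS_conn [FiniteDimensional ℂ V] {D : Set V} {W : V → V → ℝ} {E : V → V → ℂ} (hD : Dom D)
    (hlc : LinC D) (K : Kit D W E) {o a b : V} (ho : o ∈ D) (hb : b ≠ 0) {c : ℝ} (hc0 : 0 ≤ c)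
    (hc : c < 1) : IsPreconnected (SS D o a b c) := by
  have hSc := SS_compact hD.bd hlc (a := a) ho hb hc0 hc
  rw [isPreconnected_iff_subset_of_disjoint]
  intro u v hu hv hsuv hdis
  by_contra hcon
  push Not at hcon
  obtain ⟨hcu, hcv⟩ := hcon
  obtain ⟨x, hxS, hxu⟩ := not_subset.1 hcu
  obtain ⟨y, hyS, hyv⟩ := not_subset.1 hcv
  have hA : IsCompact (SS D o a b c ∩ vᶜ) := hSc.inter_right hv.isClosed_compl
  have hB : IsCompact (SS D o a b c ∩ uᶜ) := hSc.inter_right hu.isClosed_compl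
  have hAB : Disjoint (SS D o a b c ∩ vᶜ) (SS D o a b c ∩ uᶜ) := by
    rw [Set.disjoint_left]
    rintro z ⟨hz1, hz2⟩ ⟨-, hz3⟩
    rcases hsuv hz1 with h | h
    · exact hz3 h
    · exact hz2 h
  obtain ⟨U1, V1, hU1, hV1, hAU, hBV, hUV⟩ := SeparatedNhds.of_isCompact_isCompact hA hB hAB
  have hsub : SS D o a b c ⊆ U1 ∪ V1 := by
    intro z hz
    by_cases h1 : z ∈ v
    · right
      apply hBV
      refine ⟨hz, fun h2 => ?_⟩
      have : z ∈ SS D o a b c ∩ (u ∩ v) := ⟨hz, h2, h1⟩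
      rw [hdis] at this
      exact this
    · left
      exact hAU ⟨hz, h1⟩
  obtain ⟨c', hcc', hc'1, hsub'⟩ := SS_near hD.bd hlc ho hb hc0 hc (hU1.union hV1) hsub
  obtain ⟨φ, hφ, hφx⟩ := hxS
  obtain ⟨ψ, hψ, hψy⟩ := hyS
  obtain ⟨χ, h1, -, -, -, μ, h5, h6, h7, h8⟩ := join hD hlc K hφ hψ hc0 hcc' hc'1
  set P : Set ℂ := (fun s : ℝ => x + μ s * (y - x)) '' Icc 0 1 with hP
  have hPp : IsPreconnected P := by
    apply isPreconnected_Icc.image
    have : Continuous (fun s : ℝ => x + μ s * (y - x)) := by fun_prop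
    exact this.continuousOn
  have hPS : P ⊆ SS D o a b c' := by
    rintro _ ⟨s, hs, rfl⟩
    refine ⟨χ s, h1 s hs, ?_⟩
    rw [h8, hφx, hψy]
    module
  have hyP : y ∈ P := ⟨0, ⟨le_rfl, zero_le_one⟩, by simp [h6]⟩
  have hxP : x ∈ P := ⟨1, ⟨zero_le_one, le_rfl⟩, by simp [h7]⟩
  have hxV : x ∈ V1 := hBV ⟨⟨φ, hφ, hφx⟩, hxu⟩
  have hyU : y ∈ U1 := hAU ⟨⟨ψ, hψ, hψy⟩, hyv⟩
  rcases hPp.subset_or_subset hU1 hV1 hUV (hPS.trans hsub') with h | h
  · exact Set.disjoint_left.1 hUV (h hxP) hxV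
  · exact Set.disjoint_left.1 hUV hyU (h hyP)

end Pool.Agent.H801R2.CX
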