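import Mathlib
import Pool.Agent.H801R2.CX.Slice

set_option autoImplicit false

open Complex Set Filter Metric Topology

namespace Pool.Agent.H801R2.CX

variable {V : Type*} [NormedAddCommGroup V] [NormedSpace ℂ V]

/-- normalised discs passing through a given closed set at a given time, with the topology of
pointwise convergence -/
def TT (D : Set V) (o : V) (Z : Set V) (c : ℝ) : Set (ℂ → V) :=
  {φ | φ ∈ Disc D o ∧ (∀ z, z ∉ ball (0 : ℂ) 1 → φ z = o) ∧ φ (c : ℂ) ∈ Z}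

open Classical in
/-- shrinking and normalising a disc -/
noncomputable def shf (o : V) (r : ℝ) (φ : ℂ → V) : ℂ → V :=
  fun z => if z ∈ ball (0 : ℂ) 1 then φ ((r : ℂ) * z) else o

omit [NormedAddCommGroup V] [NormedSpace ℂ V] in
theorem shf_in (o : V) (r : ℝ) (φ : ℂ → V) {z : ℂ} (hz : z ∈ ball (0 : ℂ) 1) :
    shf o r φ z = φ ((r : ℂ) * z) := if_pos hz

omit [NormedAddCommGroup V] [NormedSpace ℂ V] in
theorem shf_out (o : V) (r : ℝ) (φ : ℂ → V) {z : ℂ} (hz : z ∉ ball (0 : ℂ) 1) :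
    shf o r φ z = o := if_neg hz

theorem shf_disc {D : Set V} {o : V} {r : ℝ} (hr0 : 0 ≤ r) (hr1 : r ≤ 1) {φ : ℂ → V}
    (hφ : φ ∈ Disc D o) : shf o r φ ∈ Disc D o := by
  obtain ⟨h1, h2, h3⟩ := disc_shrink hφ hr0 hr1
  refine ⟨h1.congr fun z hz => shf_in o r φ hz, fun z hz => ?_, ?_⟩
  · rw [shf_in o r φ hz]; exact h2 hz
  · rw [shf_in o r φ (mem_ball_self one_pos)]; exact h3

theorem shf_mem {D : Set V} {o : V} {Z : Set V} {c c2 : ℝ} (hc0 : 0 ≤ c) (hcc2 : c < c2)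
    (hc2 : c2 < 1) {φ : ℂ → V} (hφ : φ ∈ Disc D o) (hZ : φ (c : ℂ) ∈ Z) :
    shf o (c / c2) φ ∈ TT D o Z c2 := by
  have hc20 : 0 < c2 := lt_of_le_of_lt hc0 hcc2
  refine ⟨shf_disc (by positivity) ((div_lt_one hc20).2 hcc2).le hφ, fun z hz => shf_out _ _ _ hz,
    ?_⟩
  rw [shf_in]
  · rw [← Complex.ofReal_mul, div_mul_cancel₀ _ hc20.ne']
    exact hZ
  · rw [mem_ball_zero_iff, Complex.norm_real, Real.norm_of_nonneg hc20.le]
    exact hc2

theorem TT_compact [FiniteDimensional ℂ V] {D : Set V} (hbd : Bornology.IsBounded D)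
    (hlc : LinC D) {o : V} (ho : o ∈ D) {Z : Set V} (hZ : IsClosed Z) {c : ℝ} (hc0 : 0 ≤ c)
    (hc1 : c < 1) : IsCompact (TT D o Z c) := by
  classical
  rw [isCompact_iff_ultrafilter_le_nhds]
  intro l hl
  rw [le_principal_iff] at hl
  obtain ⟨r, hr1, hr2⟩ := rmap_index (P := fun φ => φ ∈ TT D o Z c) (l := (l : Filter (ℂ → V))) hl
  obtain ⟨φ', p1, p2, p3, p4⟩ := montel hbd hlc l r (fun i => (hr1 i).1.1)
    (fun i => (hr1 i).1.2.1) ho (by simp only [(hr1 _).1.2.2]; exact tendsto_const_nhds)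
  have hcb : (c : ℂ) ∈ ball (0 : ℂ) 1 := by
    rw [mem_ball_zero_iff, Complex.norm_real, Real.norm_of_nonneg hc0]
    exact hc1
  have hd' : φ' ∈ Disc D o := ⟨p1, p2, p3⟩
  have hs : ∀ z ∈ ball (0 : ℂ) 1, shf o 1 φ' z = φ' z := by
    intro z hz
    rw [shf_in _ _ _ hz, Complex.ofReal_one, one_mul]
  refine ⟨shf o 1 φ', ⟨shf_disc zero_le_one le_rfl hd', fun z hz => shf_out _ _ _ hz, ?_⟩, ?_⟩
  · rw [hs _ hcb]
    exact hZ.mem_of_tendsto (p4.tendsto_at hcb) (Eventually.of_forall fun i => (hr1 i).2.2)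
  · have h1 : Tendsto (fun φ : ℂ → V => φ) l (𝓝 (shf o 1 φ')) := by
      rw [tendsto_pi_nhds]
      intro z
      have h2 : (fun φ : ℂ → V => r φ z) =ᶠ[(l : Filter (ℂ → V))] fun φ => φ z := by
        filter_upwards [hr2] with φ hφ
        rw [hφ]
      apply Tendsto.congr' h2
      by_cases hz : z ∈ ball (0 : ℂ) 1
      · rw [hs z hz]
        exact p4.tendsto_at hz
      · rw [shf_out _ _ _ hz]
        have h3 : (fun φ : ℂ → V => r φ z) = fun _ => o := by
          funext φ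
          exact (hr1 φ).2.1 z hz
        rw [h3]
        exact tendsto_const_nhds
    exact h1

theorem contTT {D : Set V} (hbd : Bornology.IsBounded D) {o : V} {Z : Set V} {c : ℝ} {r : ℝ}
    (hr0 : 0 ≤ r) (hr1 : r < 1) :
    ContinuousOn (fun q : (TT D o Z c) × ℂ => q.1.1 ((r : ℂ) * q.2)) (univ ×ˢ closedBall 0 1) := by
  rintro ⟨θ0, z0⟩ ⟨-, hz0⟩
  apply ContinuousAt.continuousWithinAt
  simp only at hz0
  obtain ⟨M, hM⟩ := hbd.subset_closedBall (0 : V)
  set w0 : ℂ := (r : ℂ) * z0 with hw0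
  have hw0b : ‖w0‖ < 1 := by
    rw [mem_closedBall_zero_iff] at hz0
    rw [hw0, norm_mul, Complex.norm_real, Real.norm_of_nonneg hr0]
    nlinarith [norm_nonneg z0]
  set R : ℝ := 1 - ‖w0‖ with hR
  have hR0 : 0 < R := by linarith
  have hsub : ball w0 R ⊆ ball (0 : ℂ) 1 := by
    intro w hw
    rw [mem_ball, dist_eq_norm] at hw
    rw [mem_ball_zero_iff]
    have : w = (w - w0) + w0 := by ring
    rw [this]
    exact lt_of_le_of_lt (norm_add_le _ _) (by linarith)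
  have hlip : ∀ θ : TT D o Z c, ∀ w ∈ ball w0 R, dist (θ.1 w) (θ.1 w0) ≤ (2 * M) / R * dist w w0 := by
    intro θ
    apply lip_of_bdd (θ.2.1.1.mono hsub)
    intro z hz
    exact mem_closedBall_zero_iff.1 (hM (θ.2.1.2.1 (hsub hz)))
  have h1 : Tendsto (fun q : (TT D o Z c) × ℂ => (2 * M) / R * dist ((r : ℂ) * q.2) w0 +
      dist (q.1.1 w0) (θ0.1 w0)) (𝓝 (θ0, z0)) (𝓝 0) := by
    have hc : Continuous (fun q : (TT D o Z c) × ℂ => (2 * M) / R * dist ((r : ℂ) * q.2) w0 +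
      dist (q.1.1 w0) (θ0.1 w0)) := by
      have hev : Continuous (fun q : (TT D o Z c) × ℂ => q.1.1 w0) :=
        (continuous_apply w0).comp (continuous_subtype_val.comp continuous_fst)
      fun_prop
    have h2 := hc.tendsto (θ0, z0)
    have h3 : (2 * M) / R * dist ((r : ℂ) * (θ0, z0).2) w0 + dist ((θ0, z0).1.1 w0) (θ0.1 w0) = 0 := by
      simp [hw0]
    rwa [h3] at h2
  rw [ContinuousAt, tendsto_iff_dist_tendsto_zero]
  have hball : ∀ᶠ q : (TT D o Z c) × ℂ in 𝓝 (θ0, z0), (r : ℂ) * q.2 ∈ ball w0 R := by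
    have hc : Continuous (fun q : (TT D o Z c) × ℂ => (r : ℂ) * q.2) := by fun_prop
    exact (hc.tendsto (θ0, z0)).eventually (isOpen_ball.mem_nhds (mem_ball_self hR0))
  apply squeeze_zero' (Eventually.of_forall fun q => dist_nonneg) _ h1
  filter_upwards [hball] with q hq
  exact (dist_triangle _ (q.1.1 w0) _).trans (add_le_add_left (hlip q.1 _ hq) _)

/-- a logarithm on the space of discs -/
theorem holeG [FiniteDimensional ℂ V] {D : Set V} {W : V → V → ℝ} {E : V → V → ℂ} (hD : Dom D)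
    (hlc : LinC D) (K : Kit D W E) {o a b : V} (ho : o ∈ D) {f : V →L[ℂ] ℂ} (hf : f b = 1)
    {c2 c3 : ℝ} (hc2 : 0 < c2) (hc23 : c2 < c3) (hc3 : c3 < 1) {q : ℂ}
    (hq : a + q • b ∉ KK D o c3)
    (hne : (TT D o (range fun t : ℂ => a + t • b) c2).Nonempty) :
    ∃ G : (ℂ → V) → ℂ, ContinuousOn G (TT D o (range fun t : ℂ => a + t • b) c2) ∧
      ∀ φ ∈ TT D o (range fun t : ℂ => a + t • b) c2, exp (G φ) = f (φ c2 - a) - q := by
  classical
  set Z : Set V := range fun t : ℂ => a + t • b with hZdef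
  have hb : b ≠ 0 := by
    rintro rfl
    simp at hf
  have hZ : IsClosed Z := by
    have h1 : Z = {y | y = a + f (y - a) • b} := by
      ext y
      constructor
      · rintro ⟨t, rfl⟩
        change a + t • b = a + f (a + t • b - a) • b
        rw [add_sub_cancel_left, map_smul, hf, smul_eq_mul, mul_one]
      · intro hy
        exact ⟨f (y - a), hy.symm⟩
    rw [h1]
    exact isClosed_eq continuous_id (by fun_prop)
  have hZf : ∀ y ∈ Z, y = a + f (y - a) • b := by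
    rintro _ ⟨t, rfl⟩
    rw [add_sub_cancel_left, map_smul, hf, smul_eq_mul, mul_one]
  have hTc : IsCompact (TT D o Z c2) := TT_compact hD.bd hlc ho hZ hc2.le (hc23.trans hc3)
  have : CompactSpace (TT D o Z c2) := isCompact_iff_compactSpace.1 hTc
  obtain ⟨θ0, hθ0⟩ := hne
  have hc30 : 0 < c3 := hc2.trans hc23
  set r : ℝ := c2 / c3 with hr
  have hr0 : 0 ≤ r := by positivity
  have hr1 : r < 1 := (div_lt_one hc30).2 hc23
  have hrc : (r : ℂ) * (c3 : ℂ) = (c2 : ℂ) := by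
    rw [← Complex.ofReal_mul, hr, div_mul_cancel₀ _ hc30.ne']
  obtain ⟨-, q1, q2⟩ := shrink_closed hθ0.1 hr0 hr1
  have hθ0d := disc_shrink hθ0.1 hr0 hr1.le
  obtain ⟨m, h1, h2, h3, h4, h5⟩ := discS hD hlc K (T := TT D o Z c2)
    (a := fun θ z => θ.1 ((r : ℂ) * z)) (b := fun _ z => θ0 ((r : ℂ) * z))
    (contTT hD.bd hr0 hr1) (q1.comp continuousOn_snd (fun q hq => hq.2))
    (fun θ => (disc_shrink θ.2.1 hr0 hr1.le).1) (fun _ => hθ0d.1)
    (fun θ => (shrink_closed θ.2.1 hr0 hr1).2.2) (fun _ => q2)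
  have hc3b : (c3 : ℂ) ∈ ball (0 : ℂ) 1 := by
    rw [mem_ball_zero_iff, Complex.norm_real, Real.norm_of_nonneg hc30.le]
    exact hc3
  set τ : (ℂ → V) → ℂ := fun φ => f (φ c2 - a) with hτ
  have hτ' : ∀ φ : ℂ → V, φ (c2 : ℂ) ∈ Z → φ (c2 : ℂ) = a + τ φ • b := fun φ hφ => hZf _ hφ
  -- the homotopy avoids `q`
  set H : ℝ → TT D o Z c2 → ℂ := fun s θ =>
    τ θ.1 + m s (θ, (c3 : ℂ)) * (τ θ0 - τ θ.1) - q with hH
  have hH0 : ∀ s ∈ Icc (0 : ℝ) 1, ∀ θ, H s θ ≠ 0 := by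
    intro s hs θ h0
    apply hq
    have hθd := disc_shrink θ.2.1 hr0 hr1.le
    refine ⟨fun z => θ.1 ((r : ℂ) * z) + m s (θ, z) • (θ0 ((r : ℂ) * z) - θ.1 ((r : ℂ) * z)),
      ⟨?_, ?_, ?_⟩, ?_⟩
    · exact hθd.1.add (((h2 s).2 θ).differentiableOn.smul (hθ0d.1.sub hθd.1))
    · intro z hz
      exact h5 s hs θ z (ball_subset_closedBall hz)
    · have e1 : θ.1 ((r : ℂ) * 0) = o := hθd.2.2
      have e2 : θ0 ((r : ℂ) * 0) = o := hθ0d.2.2
      beta_reduce
      rw [e1, e2, sub_self, smul_zero, add_zero]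
    · beta_reduce
      rw [hrc, hτ' θ.1 θ.2.2.2, hτ' θ0 hθ0.2.2]
      have e3 : q = τ θ.1 + m s (θ, (c3 : ℂ)) * (τ θ0 - τ θ.1) := (sub_eq_zero.1 h0).symm
      rw [e3]
      module
  have hτc : Continuous (fun θ : TT D o Z c2 => τ θ.1) := by
    have hev : Continuous (fun θ : TT D o Z c2 => θ.1 (c2 : ℂ)) :=
      (continuous_apply (c2 : ℂ)).comp continuous_subtype_val
    exact f.continuous.comp (hev.sub continuous_const)
  have hHc : Continuous (fun p : ℝ × TT D o Z c2 => H p.1 p.2) := by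
    have e1 : Continuous (fun p : ℝ × TT D o Z c2 => τ p.2.1) := hτc.comp continuous_snd
    have e2 : Continuous (fun p : ℝ × TT D o Z c2 => m p.1 (p.2, (c3 : ℂ))) :=
      h1.comp (by fun_prop : Continuous fun p : ℝ × TT D o Z c2 => (p.1, (p.2, (c3 : ℂ))))
    exact (e1.add (e2.mul (continuous_const.sub e1))).sub continuous_const
  have hH00 : ∀ θ, H 0 θ = τ θ0 - q := by
    intro θ
    rw [hH]
    simp only [h3]
    ring
  have hbase : τ θ0 - q ≠ 0 := by
    rw [← hH00 ⟨θ0, hθ0⟩]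
    exact hH0 0 ⟨le_rfl, zero_le_one⟩ _
  set cl : ℂ → ℝ := fun z => max 0 (min z.re 1) with hcl
  have hclm : ∀ z, cl z ∈ Icc (0 : ℝ) 1 := fun z =>
    ⟨le_max_left _ _, max_le zero_le_one (min_le_right _ _)⟩
  have hclc : Continuous cl := by
    rw [hcl]
    have := Complex.continuous_re
    fun_prop
  obtain ⟨L, hL1, hL2, hL3⟩ := logCont (Y := TT D o Z c2) (U := univ) isOpen_univ
    (fun _ _ => trivial) (fun p _ => by
      have : {z : ℂ | (p.1, z) ∈ (univ : Set (TT D o Z c2 × ℂ))} = univ := by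
        ext z; simp
      rw [this]
      exact simplyConnected_univ) (q := fun p => H (cl p.2) p.1 / (τ θ0 - q))
    (by
      apply Continuous.continuousOn
      apply Continuous.div_const
      exact hHc.comp (by fun_prop : Continuous fun p : TT D o Z c2 × ℂ => (cl p.2, p.1)))
    (fun p _ => div_ne_zero (hH0 _ (hclm _) _) hbase)
    (fun p _ => by
      have : cl 0 = 0 := by simp [hcl]
      simp only [this, hH00]
      exact div_self hbase)
  have hLc : Continuous (fun θ : TT D o Z c2 => L (θ, 1)) := by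
    have : Continuous L := by rwa [← continuousOn_univ]
    exact this.comp (by fun_prop : Continuous fun θ : TT D o Z c2 => (θ, (1 : ℂ)))
  refine ⟨fun φ => if h : φ ∈ TT D o Z c2 then L (⟨φ, h⟩, 1) + Complex.log (τ θ0 - q) else 0,
    ?_, ?_⟩
  · rw [continuousOn_iff_continuous_domRestrict]
    have : (TT D o Z c2).domRestrict (fun φ => if h : φ ∈ TT D o Z c2 then
        L (⟨φ, h⟩, 1) + Complex.log (τ θ0 - q) else 0) =
        fun θ => L (θ, 1) + Complex.log (τ θ0 - q) := by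
      funext θ
      simp [Set.domRestrict]
    rw [this]
    exact hLc.add continuous_const
  · intro φ hφ
    simp only [hφ, dif_pos]
    rw [Complex.exp_add, Complex.exp_log hbase, hL2 _ trivial]
    have e1 : cl 1 = 1 := by simp [hcl]
    simp only [e1]
    rw [div_mul_cancel₀ _ hbase, hH]
    simp only [h4, zero_mul, add_zero, hτ]

theorem hole [FiniteDimensional ℂ V] {D : Set V} {W : V → V → ℝ} {E : V → V → ℂ} (hD : Dom D)
    (hlc : LinC D) (K : Kit D W E) {o a b : V} (ho : o ∈ D) (hb : b ≠ 0) {c : ℝ} (hc0 : 0 < c)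
    (hc1 : c < 1) {q : ℂ} (hq : q ∉ SS D o a b c) :
    ∃ l : ℂ → ℂ, ContinuousOn l (SS D o a b c) ∧ ∀ t ∈ SS D o a b c, exp (l t) = t - q := by
  classical
  by_cases hne : (SS D o a b c).Nonempty
  swap
  · rw [not_nonempty_iff_eq_empty] at hne
    rw [hne]
    exact ⟨fun _ => 0, continuousOn_empty _, fun t ht => absurd ht (notMem_empty t)⟩
  obtain ⟨t0, φ0, hφ0, hφ0c⟩ := hne
  obtain ⟨c3, hcc3, hc31, hq3⟩ := KK_right hD.bd hlc ho hc0.le hc1 hq
  set c2 : ℝ := (c + c3) / 2 with hc2def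
  have hcc2 : c < c2 := by rw [hc2def]; linarith
  have hc23 : c2 < c3 := by rw [hc2def]; linarith
  have hc20 : 0 < c2 := hc0.trans hcc2
  obtain ⟨f, hf⟩ : ∃ f : V →L[ℂ] ℂ, f b = 1 := SeparatingDual.exists_eq_one hb
  set Z : Set V := range fun t : ℂ => a + t • b with hZdef
  have hsh : ∀ φ ∈ Disc D o, φ (c : ℂ) ∈ Z → shf o (c / c2) φ ∈ TT D o Z c2 := fun φ hφ h =>
    shf_mem hc0.le hcc2 (hc23.trans hc31) hφ h
  obtain ⟨G, hG1, hG2⟩ := holeG hD hlc K ho hf hc20 hc23 hc31 hq3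
    ⟨_, hsh φ0 hφ0 ⟨t0, hφ0c.symm⟩⟩
  have hc2b : (c2 : ℂ) ∈ ball (0 : ℂ) 1 := by
    rw [mem_ball_zero_iff, Complex.norm_real, Real.norm_of_nonneg hc20.le]
    exact hc23.trans hc31
  have hr0 : 0 ≤ c / c2 := by positivity
  have hr1 : c / c2 < 1 := (div_lt_one hc20).2 hcc2
  have hrc : ((c / c2 : ℝ) : ℂ) * (c2 : ℂ) = (c : ℂ) := by
    rw [← Complex.ofReal_mul, div_mul_cancel₀ _ hc20.ne']
  have hshc : ∀ φ : ℂ → V, shf o (c / c2) φ (c2 : ℂ) = φ (c : ℂ) := by
    intro φ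
    rw [shf_in _ _ _ hc2b, hrc]
  -- fibres
  have hfib : ∀ φ ∈ Disc D o, ∀ ψ ∈ Disc D o, ∀ t : ℂ, φ (c : ℂ) = a + t • b →
      ψ (c : ℂ) = a + t • b → G (shf o (c / c2) φ) = G (shf o (c / c2) ψ) := by
    intro φ hφ ψ hψ t hφt hψt
    obtain ⟨χ, h1, h2, h3, h4, μ, h5, h6, h7, h8⟩ := join hD hlc K hφ hψ hc0.le hcc2
      (hc23.trans hc31)
    have hχc : ∀ s, χ s c2 = a + t • b := by
      intro s
      rw [h8, hφt, hψt, sub_self, smul_zero, add_zero]
    have hmem : ∀ s ∈ Icc (0 : ℝ) 1, shf o 1 (χ s) ∈ TT D o Z c2 := by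
      intro s hs
      refine ⟨shf_disc zero_le_one le_rfl (h1 s hs), fun z hz => shf_out _ _ _ hz, ?_⟩
      rw [shf_in _ _ _ hc2b, Complex.ofReal_one, one_mul, hχc]
      exact ⟨t, rfl⟩
    have hcont : Continuous (fun s : ℝ => shf o 1 (χ s)) := by
      rw [continuous_pi_iff]
      intro z
      by_cases hz : z ∈ ball (0 : ℂ) 1
      · have : (fun s : ℝ => shf o 1 (χ s) z) = fun s => χ s z := by
          funext s
          rw [shf_in _ _ _ hz, Complex.ofReal_one, one_mul]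
        rw [this]
        exact h2 z
      · have : (fun s : ℝ => shf o 1 (χ s) z) = fun _ => o := by
          funext s
          rw [shf_out _ _ _ hz]
        rw [this]
        exact continuous_const
    have hcG : ContinuousOn (fun s : ℝ => G (shf o 1 (χ s))) (Icc 0 1) :=
      hG1.comp hcont.continuousOn hmem
    have e0 : shf o 1 (χ 0) = shf o (c / c2) ψ := by
      funext z
      by_cases hz : z ∈ ball (0 : ℂ) 1
      · rw [shf_in _ _ _ hz, shf_in _ _ _ hz, Complex.ofReal_one, one_mul, h3]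
      · rw [shf_out _ _ _ hz, shf_out _ _ _ hz]
    have e1 : shf o 1 (χ 1) = shf o (c / c2) φ := by
      funext z
      by_cases hz : z ∈ ball (0 : ℂ) 1
      · rw [shf_in _ _ _ hz, shf_in _ _ _ hz, Complex.ofReal_one, one_mul, h4]
      · rw [shf_out _ _ _ hz, shf_out _ _ _ hz]
    have hconst := eqOn_of_exp (S := Icc (0 : ℝ) 1) isPreconnected_Icc hcG
      (g := fun _ => G (shf o 1 (χ 0))) continuousOn_const (by
        intro s hs
        rw [hG2 _ (hmem s hs), hG2 _ (hmem 0 ⟨le_rfl, zero_le_one⟩), shf_in _ _ _ hc2b,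
          shf_in _ _ _ hc2b, Complex.ofReal_one, one_mul, hχc, hχc])
      (a := 0) ⟨le_rfl, zero_le_one⟩ rfl 1 ⟨zero_le_one, le_rfl⟩
    rw [e0, e1] at hconst
    exact hconst
  -- the selection
  have hsel : ∀ t : ℂ, ∃ φ : ℂ → V, t ∈ SS D o a b c → φ ∈ Disc D o ∧ φ (c : ℂ) = a + t • b := by
    intro t
    by_cases ht : t ∈ SS D o a b c
    · obtain ⟨φ, hφ, hφc⟩ := ht
      exact ⟨φ, fun _ => ⟨hφ, hφc⟩⟩
    · exact ⟨fun _ => o, fun h => absurd h ht⟩
  choose φ hφ using hsel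
  refine ⟨fun t => G (shf o (c / c2) (φ t)), ?_, ?_⟩
  · intro s0 hs0
    rw [ContinuousWithinAt, tendsto_iff_ultrafilter]
    intro l hl
    have hS : ∀ᶠ t in (l : Filter ℂ), t ∈ SS D o a b c := hl self_mem_nhdsWithin
    have hnh : Tendsto (fun t : ℂ => t) l (𝓝 s0) := hl.trans nhdsWithin_le_nhds
    obtain ⟨r, hr1', hr2'⟩ := rmap_index hS
    obtain ⟨φ', p1, p2, p3, p4⟩ := montel hD.bd hlc l (fun t => φ (r t))
      (fun t => (hφ _ (hr1' t)).1.1) (fun t => (hφ _ (hr1' t)).1.2.1) ho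
      (by simp only [(hφ _ (hr1' _)).1.2.2]; exact tendsto_const_nhds)
    have hφ'd : φ' ∈ Disc D o := ⟨p1, p2, p3⟩
    have hcb : (c : ℂ) ∈ ball (0 : ℂ) 1 := by
      rw [mem_ball_zero_iff, Complex.norm_real, Real.norm_of_nonneg hc0.le]
      exact hc1
    have hφ'c : φ' (c : ℂ) = a + s0 • b := by
      have e1 : Tendsto (fun t => φ (r t) (c : ℂ)) l (𝓝 (φ' (c : ℂ))) := p4.tendsto_at hcb
      have e2 : Tendsto (fun t => φ (r t) (c : ℂ)) l (𝓝 (a + s0 • b)) := by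
        have e3 : Tendsto (fun t : ℂ => a + t • b) l (𝓝 (a + s0 • b)) :=
          (hnh.smul_const b).const_add a
        apply e3.congr'
        filter_upwards [hr2'] with t ht
        rw [(hφ _ (hr1' t)).2, ht]
      exact tendsto_nhds_unique e1 e2
    have hfib' := hfib φ' hφ'd (φ s0) (hφ s0 hs0).1 s0 hφ'c (hφ s0 hs0).2
    rw [← hfib']
    have hT' : shf o (c / c2) φ' ∈ TT D o Z c2 := hsh φ' hφ'd ⟨s0, hφ'c.symm⟩
    have hTt : ∀ t, shf o (c / c2) (φ (r t)) ∈ TT D o Z c2 := fun t =>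
      hsh _ (hφ _ (hr1' t)).1 ⟨r t, (hφ _ (hr1' t)).2.symm⟩
    have hlim : Tendsto (fun t => shf o (c / c2) (φ (r t))) l (𝓝 (shf o (c / c2) φ')) := by
      rw [tendsto_pi_nhds]
      intro z
      by_cases hz : z ∈ ball (0 : ℂ) 1
      · simp only [shf_in _ _ _ hz]
        apply p4.tendsto_at
        rw [mem_ball_zero_iff] at hz ⊢
        rw [norm_mul, Complex.norm_real, Real.norm_of_nonneg hr0]
        nlinarith [norm_nonneg z]
      · simp only [shf_out _ _ _ hz]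
        exact tendsto_const_nhds
    have hlast : Tendsto (fun t => G (shf o (c / c2) (φ (r t)))) l
        (𝓝 (G (shf o (c / c2) φ'))) := by
      apply (hG1 _ hT').tendsto.comp
      rw [tendsto_nhdsWithin_iff]
      exact ⟨hlim, Eventually.of_forall hTt⟩
    apply hlast.congr'
    filter_upwards [hr2'] with t ht
    rw [ht]
  · intro t ht
    have h1 := hφ t ht
    rw [hG2 _ (hsh _ h1.1 ⟨t, h1.2.symm⟩), hshc, h1.2, add_sub_cancel_left, map_smul, hf,
      smul_eq_mul, mul_one]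

theorem SS_compl [FiniteDimensional ℂ V] {D : Set V} {W : V → V → ℝ} {E : V → V → ℂ} (hD : Dom D)
    (hlc : LinC D) (K : Kit D W E) {o a b : V} (ho : o ∈ D) (hb : b ≠ 0) {c : ℝ} (hc0 : 0 < c)
    (hc1 : c < 1) : IsConnected (SS D o a b c)ᶜ :=
  borsuk (SS_compact hD.bd hlc ho hb hc0.le hc1) fun _ hq => hole hD hlc K ho hb hc0 hc1 hq

end Pool.Agent.H801R2.CX
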