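import Mathlib
import Pool.Agent.H801R2.CX.Hole

set_option autoImplicit false

open Complex Set Filter Metric Topology

namespace Pool.Agent.H801R2.CX

variable {V : Type*} [NormedAddCommGroup V] [NormedSpace ℂ V]

theorem linC_of_dom [FiniteDimensional ℂ V] {D : Set V} (hD : Dom D) (hne : D.Nonempty) :
    LinC D := by
  intro q hq
  obtain ⟨f, hf⟩ := linConv hD.op hne hD.sc hq
  exact ⟨LinearMap.toContinuousLinearMap f, fun x hx => hf x hx⟩

theorem KK_int {D : Set V} (hD : IsOpen D) {o : V} {c c' : ℝ} (hc0 : 0 ≤ c) (hcc' : c < c') :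
    KK D o c ⊆ interior (KK D o c') := by
  have hc' : 0 < c' := lt_of_le_of_lt hc0 hcc'
  have hr0 : 0 ≤ c / c' := by positivity
  have hr1 : c / c' < 1 := (div_lt_one hc').2 hcc'
  rintro _ ⟨φ, hφ, rfl⟩
  obtain ⟨-, h1, h2⟩ := shrink_closed hφ hr0 hr1
  have hφd := disc_shrink hφ hr0 hr1.le
  have hK : IsCompact ((fun z : ℂ => φ (((c / c' : ℝ) : ℂ) * z)) '' closedBall 0 1) :=
    (isCompact_closedBall _ _).image_of_continuousOn h1
  obtain ⟨δ, hδ, hsub⟩ := hK.exists_thickening_subset_open hD (by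
    rintro _ ⟨z, hz, rfl⟩
    exact h2 z hz)
  rw [mem_interior_iff_mem_nhds, Metric.mem_nhds_iff]
  refine ⟨δ * c', by positivity, fun y hy => ?_⟩
  set w : V := y - φ (c : ℂ) with hw
  have hwn : ‖w‖ < δ * c' := by rwa [mem_ball, dist_eq_norm] at hy
  refine ⟨fun z => φ (((c / c' : ℝ) : ℂ) * z) + z • ((c' : ℂ)⁻¹ • w), ⟨?_, ?_, ?_⟩, ?_⟩
  · apply hφd.1.add
    fun_prop
  · intro z hz
    apply hsub
    rw [mem_thickening_iff]
    refine ⟨_, ⟨z, ball_subset_closedBall hz, rfl⟩, ?_⟩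
    rw [dist_eq_norm, add_sub_cancel_left, norm_smul, norm_smul, norm_inv, Complex.norm_real,
      Real.norm_of_nonneg hc'.le]
    rw [mem_ball_zero_iff] at hz
    have h3 : c'⁻¹ * ‖w‖ < δ := by
      rw [inv_mul_lt_iff₀ hc', mul_comm]
      exact hwn
    have h4 : 0 ≤ c'⁻¹ * ‖w‖ := by positivity
    nlinarith [norm_nonneg z]
  · have e1 : φ (((c / c' : ℝ) : ℂ) * 0) = o := hφd.2.2
    beta_reduce
    rw [e1, zero_smul, add_zero]
  · have e : ((c / c' : ℝ) : ℂ) * (c' : ℂ) = (c : ℂ) := by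
      rw [← Complex.ofReal_mul, div_mul_cancel₀ _ hc'.ne']
    have hc'c : (c' : ℂ) ≠ 0 := by exact_mod_cast hc'.ne'
    beta_reduce
    rw [e, smul_smul, mul_inv_cancel₀ hc'c, one_smul, hw, add_sub_cancel]

/-- The exhaustion in a general finite dimensional space. -/
theorem exhaustion [FiniteDimensional ℂ V] {D : Set V} (hD : Dom D) :
    ∃ K : ℕ → Set V, (∀ j, IsCompact (K j)) ∧ (∀ j, K j ⊆ interior (K (j + 1))) ∧
      (⋃ j, K j) = D ∧ ∀ j, ∀ a b : V, b ≠ 0 →
        IsPreconnected {t : ℂ | a + t • b ∈ K j} ∧ IsConnected {t : ℂ | a + t • b ∈ K j}ᶜ := by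
  rcases D.eq_empty_or_nonempty with rfl | ⟨o, ho⟩
  · refine ⟨fun _ => ∅, fun _ => isCompact_empty, fun _ => empty_subset _, by simp, ?_⟩
    intro j a b _
    have h1 : {t : ℂ | a + t • b ∈ (∅ : Set V)} = ∅ := by
      ext t; simp
    rw [h1, compl_empty]
    exact ⟨isPreconnected_empty, isConnected_univ⟩
  · have hlc : LinC D := linC_of_dom hD ⟨o, ho⟩
    obtain ⟨W, E, K⟩ := exists_kit hD hlc
    set c : ℕ → ℝ := fun j => 1 - 1 / ((j : ℝ) + 2) with hc
    have hc0 : ∀ j, 0 < c j := by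
      intro j
      have h1 : (0 : ℝ) < (j : ℝ) + 2 := by positivity
      have h2 : 1 / ((j : ℝ) + 2) < 1 := by
        rw [div_lt_one h1]
        have : (0 : ℝ) ≤ (j : ℝ) := Nat.cast_nonneg j
        linarith
      rw [hc]; linarith
    have hc1 : ∀ j, c j < 1 := by
      intro j
      have h1 : (0 : ℝ) < 1 / ((j : ℝ) + 2) := by positivity
      rw [hc]; linarith
    have hcm : ∀ j, c j < c (j + 1) := by
      intro j
      have h1 : 1 / (((j + 1 : ℕ) : ℝ) + 2) < 1 / ((j : ℝ) + 2) := by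
        apply one_div_lt_one_div_of_lt (by positivity)
        push_cast
        linarith
      rw [hc]; linarith
    refine ⟨fun j => KK D o (c j), ?_, ?_, ?_, ?_⟩
    · intro j
      exact KK_compact hD.bd hlc ho (hc0 j).le (hc1 j)
    · intro j
      exact KK_int hD.op (hc0 j).le (hcm j)
    · apply Subset.antisymm
      · apply iUnion_subset
        intro j
        exact KK_sub (hc0 j).le (hc1 j)
      · intro y hy
        obtain ⟨r, hr0, hr1, hyr⟩ := KK_exhaust K ho hy
        obtain ⟨j, hj⟩ := exists_nat_gt (1 / (1 - r))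
        rw [mem_iUnion]
        refine ⟨j, KK_mono hr0.le ?_ (hc0 j) hyr⟩
        have h1 : 0 < 1 - r := by linarith
        have h2 : 1 / ((j : ℝ) + 2) ≤ 1 - r := by
          rw [div_lt_iff₀ h1] at hj
          rw [div_le_iff₀ (by positivity)]
          nlinarith
        rw [hc]; linarith
    · intro j a b hb
      exact ⟨SS_conn hD hlc K ho hb (hc0 j).le (hc1 j), SS_compl hD hlc K ho hb (hc0 j) (hc1 j)⟩

end Pool.Agent.H801R2.CX
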